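import Pool.Agent.Work.MP_376faf_co_neps.Irr

/-! One-sided cuts: only the decompositions `b = c ++ j ++ e` with `j` irreducible whose left
(right) part has span `< D`. -/

set_option autoImplicit false

namespace Pool.Agent.Work.MP_376faf_co_log

open Pool.Agent.Work.MP_376faf_co_lower Pool.Agent.Work.MP_376faf_co_hw
open Pool.Agent.Work.MP_376faf_co_neps Pool.Agent.Work.MP_376faf_co_neps.IrrAux
open scoped ENNReal

/-- last irreducible factor -/
theorem last_irr : ∀ (n : ℕ) {l : List Pt}, l.length ≤ n → Bridge l → l ≠ [] →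
    ∃ r j : List Pt, Bridge r ∧ BR 1 j ∧ l = r ++ j := by
  intro n
  induction n with
  | zero =>
    intro l hl _ h0
    exact absurd (List.length_eq_zero_iff.1 (by omega)) h0
  | succ n ih =>
    intro l hl hb h0
    obtain ⟨j, r, hj, hr, e⟩ := first_irr hb h0
    by_cases hr0 : r = []
    · exact ⟨[], j, bridge_nil, hj, by rw [e, hr0]; simp⟩
    · have hjl : 1 ≤ j.length := List.length_pos_iff.2 hj.2.1
      have hrl : r.length ≤ n := by
        rw [e, List.length_append] at hl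
        omega
      obtain ⟨r', j', hr', hj', e'⟩ := ih hrl hr hr0
      exact ⟨j ++ r', j', bridge_append hj.1 hr', hj', by rw [e, e', List.append_assoc]⟩

open Classical in
theorem teleL {z : ℝ≥0∞} (hz : z ≤ 1) : ∀ (n : ℕ) (b : List Pt) (D : ℕ), b.length ≤ n → Bridge b →
    D ≤ sp b →
    1 - z ^ D ≤ ∑' q : Br × Ir × Br, if q.1.1 ++ (q.2.1.1 ++ q.2.2.1) = b ∧ sp q.1.1 < D then
      z ^ sp q.1.1 * (1 - z ^ sp q.2.1.1) else 0 := by
  intro n
  induction n with
  | zero =>
    intro b D hb _ hD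
    have : b = [] := List.length_eq_zero_iff.1 (by omega)
    subst this
    rw [sp_nil] at hD
    have : D = 0 := by omega
    subst this
    simp
  | succ n ih =>
    intro b D hbl hb hD
    rcases Nat.eq_zero_or_pos D with hD0 | hD0
    · subst hD0
      simp
    have h0 : b ≠ [] := by
      rintro rfl
      rw [sp_nil] at hD
      omega
    obtain ⟨j, r, hj, hr, e⟩ := first_irr hb h0
    by_cases hjD : D ≤ sp j
    · refine le_trans ?_ (ENNReal.le_tsum ((⟨[], bridge_nil⟩, ⟨j, hj⟩, ⟨r, hr⟩) : Br × Ir × Br))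
      simp only
      rw [if_pos ⟨by rw [List.nil_append, e], by rw [sp_nil]; exact hD0⟩, sp_nil, pow_zero, one_mul]
      exact tsub_le_tsub_left (pow_le_pow_right_of_le_one' hz hjD) 1
    push Not at hjD
    have hjl : 1 ≤ j.length := List.length_pos_iff.2 hj.2.1
    have hrl : r.length ≤ n := by
      rw [e, List.length_append] at hbl
      omega
    have hspb : sp b = sp j + sp r := by rw [e, sp_app hj.1 hr]
    obtain ⟨D', hD'⟩ : ∃ D', D = sp j + D' := ⟨D - sp j, by omega⟩
    have h1 := ih r D' hrl hr (by omega)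
    have h2 : (1 - z ^ sp j) + z ^ sp j * (1 - z ^ D') ≤ ∑' i : Unit ⊕ (Br × Ir × Br),
        Sum.elim (fun _ : Unit => 1 - z ^ sp j) (fun q : Br × Ir × Br => z ^ sp j *
          (if q.1.1 ++ (q.2.1.1 ++ q.2.2.1) = r ∧ sp q.1.1 < D' then
            z ^ sp q.1.1 * (1 - z ^ sp q.2.1.1) else 0)) i := by
      rw [tsum_sum']
      simp only [Sum.elim_inl, Sum.elim_inr]
      rw [ENNReal.tsum_mul_left]
      refine add_le_add ?_ (mul_le_mul_right h1 _)
      simp
    have h3 : 1 - z ^ D ≤ (1 - z ^ sp j) + z ^ sp j * (1 - z ^ D') := by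
      rw [hD', pow_add, tsub_le_iff_right]
      have e1 : z ^ sp j * (1 - z ^ D') + z ^ sp j * z ^ D' = z ^ sp j := by
        rw [← mul_add, tsub_add_cancel_of_le (pow_le_one' hz _), mul_one]
      rw [add_assoc, e1, tsub_add_cancel_of_le (pow_le_one' hz _)]
    refine h3.trans (h2.trans ?_)
    refine tsum_le_inj (fun i : Unit ⊕ (Br × Ir × Br) => Sum.elim
      (fun _ : Unit => ((⟨[], bridge_nil⟩, ⟨j, hj⟩, ⟨r, hr⟩) : Br × Ir × Br))
      (fun q => (⟨j ++ q.1.1, bridge_append hj.1 q.1.2⟩, q.2.1, q.2.2)) i) ?_ ?_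
    · rintro (_ | q) (_ | q') h
      · rfl
      · exfalso
        simp only [Sum.elim_inl, Sum.elim_inr, Prod.mk.injEq, Subtype.mk.injEq] at h
        have := congrArg List.length h.1
        rw [List.length_append, List.length_nil] at this
        omega
      · exfalso
        simp only [Sum.elim_inl, Sum.elim_inr, Prod.mk.injEq, Subtype.mk.injEq] at h
        have := congrArg List.length h.1
        rw [List.length_append, List.length_nil] at this
        omega
      · simp only [Sum.elim_inr, Prod.mk.injEq, Subtype.mk.injEq, List.append_cancel_left_eq] at h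
        congr 1
        exact Prod.ext (Subtype.ext h.1) (Prod.ext h.2.1 h.2.2)
    · rintro (_ | q)
      · simp only [Sum.elim_inl]
        rw [if_pos ⟨by rw [List.nil_append, e], by rw [sp_nil]; exact hD0⟩]
        simp [sp_nil]
      · simp only [Sum.elim_inr]
        by_cases hq : q.1.1 ++ (q.2.1.1 ++ q.2.2.1) = r ∧ sp q.1.1 < D'
        · rw [if_pos hq, if_pos ⟨by rw [List.append_assoc, hq.1, e], by
            rw [sp_app hj.1 q.1.2]; have := hq.2; omega⟩, sp_app hj.1 q.1.2, pow_add,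
            mul_assoc]
        · rw [if_neg hq]
          simp

open Classical in
theorem teleR {z : ℝ≥0∞} (hz : z ≤ 1) : ∀ (n : ℕ) (b : List Pt) (D : ℕ), b.length ≤ n → Bridge b →
    D ≤ sp b →
    1 - z ^ D ≤ ∑' q : Br × Ir × Br, if q.1.1 ++ (q.2.1.1 ++ q.2.2.1) = b ∧ sp q.2.2.1 < D then
      z ^ sp q.2.2.1 * (1 - z ^ sp q.2.1.1) else 0 := by
  intro n
  induction n with
  | zero =>
    intro b D hb _ hD
    have : b = [] := List.length_eq_zero_iff.1 (by omega)
    subst this
    rw [sp_nil] at hD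
    have : D = 0 := by omega
    subst this
    simp
  | succ n ih =>
    intro b D hbl hb hD
    rcases Nat.eq_zero_or_pos D with hD0 | hD0
    · subst hD0
      simp
    have h0 : b ≠ [] := by
      rintro rfl
      rw [sp_nil] at hD
      omega
    obtain ⟨r, j, hr, hj, e⟩ := last_irr b.length le_rfl hb h0
    by_cases hjD : D ≤ sp j
    · refine le_trans ?_ (ENNReal.le_tsum ((⟨r, hr⟩, ⟨j, hj⟩, ⟨[], bridge_nil⟩) : Br × Ir × Br))
      simp only
      rw [if_pos ⟨by rw [List.append_nil, e], by rw [sp_nil]; exact hD0⟩, sp_nil, pow_zero, one_mul]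
      exact tsub_le_tsub_left (pow_le_pow_right_of_le_one' hz hjD) 1
    push Not at hjD
    have hjl : 1 ≤ j.length := List.length_pos_iff.2 hj.2.1
    have hrl : r.length ≤ n := by
      rw [e, List.length_append] at hbl
      omega
    have hspb : sp b = sp r + sp j := by rw [e, sp_app hr hj.1]
    obtain ⟨D', hD'⟩ : ∃ D', D = sp j + D' := ⟨D - sp j, by omega⟩
    have h1 := ih r D' hrl hr (by omega)
    have h2 : (1 - z ^ sp j) + z ^ sp j * (1 - z ^ D') ≤ ∑' i : Unit ⊕ (Br × Ir × Br),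
        Sum.elim (fun _ : Unit => 1 - z ^ sp j) (fun q : Br × Ir × Br => z ^ sp j *
          (if q.1.1 ++ (q.2.1.1 ++ q.2.2.1) = r ∧ sp q.2.2.1 < D' then
            z ^ sp q.2.2.1 * (1 - z ^ sp q.2.1.1) else 0)) i := by
      rw [tsum_sum']
      simp only [Sum.elim_inl, Sum.elim_inr]
      rw [ENNReal.tsum_mul_left]
      refine add_le_add ?_ (mul_le_mul_right h1 _)
      simp
    have h3 : 1 - z ^ D ≤ (1 - z ^ sp j) + z ^ sp j * (1 - z ^ D') := by
      rw [hD', pow_add, tsub_le_iff_right]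
      have e1 : z ^ sp j * (1 - z ^ D') + z ^ sp j * z ^ D' = z ^ sp j := by
        rw [← mul_add, tsub_add_cancel_of_le (pow_le_one' hz _), mul_one]
      rw [add_assoc, e1, tsub_add_cancel_of_le (pow_le_one' hz _)]
    refine h3.trans (h2.trans ?_)
    refine tsum_le_inj (fun i : Unit ⊕ (Br × Ir × Br) => Sum.elim
      (fun _ : Unit => ((⟨r, hr⟩, ⟨j, hj⟩, ⟨[], bridge_nil⟩) : Br × Ir × Br))
      (fun q => (q.1, q.2.1, ⟨q.2.2.1 ++ j, bridge_append q.2.2.2 hj.1⟩)) i) ?_ ?_
    · rintro (_ | q) (_ | q') h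
      · rfl
      · exfalso
        simp only [Sum.elim_inl, Sum.elim_inr, Prod.mk.injEq, Subtype.mk.injEq] at h
        have := congrArg List.length h.2.2
        rw [List.length_append, List.length_nil] at this
        omega
      · exfalso
        simp only [Sum.elim_inl, Sum.elim_inr, Prod.mk.injEq, Subtype.mk.injEq] at h
        have := congrArg List.length h.2.2
        rw [List.length_append, List.length_nil] at this
        omega
      · simp only [Sum.elim_inr, Prod.mk.injEq, Subtype.mk.injEq, List.append_cancel_right_eq] at h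
        congr 1
        exact Prod.ext h.1 (Prod.ext h.2.1 (Subtype.ext h.2.2))
    · rintro (_ | q)
      · simp only [Sum.elim_inl]
        rw [if_pos ⟨by rw [List.append_nil, e], by rw [sp_nil]; exact hD0⟩]
        simp [sp_nil]
      · simp only [Sum.elim_inr]
        by_cases hq : q.1.1 ++ (q.2.1.1 ++ q.2.2.1) = r ∧ sp q.2.2.1 < D'
        · rw [if_pos hq, if_pos ⟨by rw [e, ← hq.1]; simp only [List.append_assoc], by
            rw [sp_app q.2.2.2 hj.1]; have := hq.2; omega⟩, sp_app q.2.2.2 hj.1, pow_add]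
          refine le_of_eq ?_
          ring
        · rw [if_neg hq]
          simp

/-- `z_N ^ A` as a real number -/
theorem zN_ofReal (N : ℕ) (hN : 1 ≤ N) : zN N = ENNReal.ofReal ((1 + 1 / (N : ℝ))⁻¹) := by
  have hN' : (0:ℝ) < N := by exact_mod_cast hN
  have e : (1 + 1 / (N : ℝ))⁻¹ = (N:ℝ) / ((N:ℝ) + 1) := by
    field_simp
  rw [e, ENNReal.ofReal_div_of_pos (by positivity), ENNReal.ofReal_natCast,
    ENNReal.ofReal_add hN'.le zero_le_one, ENNReal.ofReal_natCast, ENNReal.ofReal_one]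
  rfl

theorem num_cut {D : ℕ} (hD : 1 ≤ D) : 1 ≤ 8 * (1 - zN (4 * D) ^ D) := by
  have hD' : (0:ℝ) < D := by exact_mod_cast hD
  rw [zN_ofReal (4 * D) (by omega)]
  set s : ℝ := 1 + 1 / ((4 * D : ℕ) : ℝ) with hs
  have hs1 : 1 ≤ s := by
    rw [hs]
    have : (0:ℝ) ≤ 1 / ((4 * D : ℕ) : ℝ) := by positivity
    linarith
  have h1 : 5 / 4 ≤ s ^ D := by
    have := one_add_mul_le_pow (a := 1 / ((4 * D : ℕ) : ℝ)) (by
      have : (0:ℝ) ≤ 1 / ((4 * D : ℕ) : ℝ) := by positivity
      linarith) D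
    refine le_trans (le_of_eq ?_) this
    push_cast
    field_simp
    norm_num
  have h2 : (s⁻¹) ^ D ≤ 4 / 5 := by
    rw [inv_pow, inv_le_comm₀ (by positivity) (by norm_num)]
    refine le_trans ?_ h1
    norm_num
  have h0 : 0 ≤ s⁻¹ := by positivity
  rw [← ENNReal.ofReal_pow h0]
  have e1 : (1 : ℝ≥0∞) - ENNReal.ofReal ((s⁻¹) ^ D) = ENNReal.ofReal (1 - (s⁻¹) ^ D) := by
    rw [ENNReal.ofReal_sub _ (by positivity), ENNReal.ofReal_one]
  have e2 : (8 : ℝ≥0∞) = ENNReal.ofReal 8 := by simp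
  rw [e1, e2, ← ENNReal.ofReal_mul (by norm_num), ← ENNReal.ofReal_one]
  apply ENNReal.ofReal_le_ofReal
  nlinarith

theorem num_big {N A : ℕ} (hN : 1 ≤ N) (hA : A ≤ 2 * N) : 1 ≤ 8 * zN N ^ A := by
  have hN' : (0:ℝ) < N := by exact_mod_cast hN
  rw [zN_ofReal N hN]
  set s : ℝ := 1 + 1 / (N : ℝ) with hs
  have hs1 : 1 ≤ s := by
    rw [hs]
    have : (0:ℝ) ≤ 1 / (N : ℝ) := by positivity
    linarith
  have h4 : s ^ A ≤ 8 := by
    have h5 : s ≤ Real.exp (1 / (N:ℝ)) := by
      have := Real.add_one_le_exp (1 / (N:ℝ))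
      linarith
    have h6 : s ^ A ≤ s ^ (2 * N) := pow_le_pow_right₀ hs1 hA
    have h7 : s ^ (2 * N) ≤ Real.exp (1 / (N:ℝ)) ^ (2 * N) :=
      pow_le_pow_left₀ (by positivity) h5 _
    have h8 : Real.exp (1 / (N:ℝ)) ^ (2 * N) = Real.exp 1 ^ 2 := by
      rw [← Real.exp_nat_mul, ← Real.exp_nat_mul]
      congr 1
      push_cast
      field_simp
    rw [h8] at h7
    have h9 := Real.exp_one_lt_d9
    have h10 := Real.exp_pos 1
    nlinarith
  have h0 : 0 ≤ s⁻¹ := by positivity
  rw [← ENNReal.ofReal_pow h0]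
  have e2 : (8 : ℝ≥0∞) = ENNReal.ofReal 8 := by simp
  rw [e2, ← ENNReal.ofReal_mul (by norm_num), ← ENNReal.ofReal_one]
  apply ENNReal.ofReal_le_ofReal
  rw [inv_pow]
  have h11 : 0 < s ^ A := by positivity
  rw [← div_eq_mul_inv, le_div_iff₀ h11]
  linarith

theorem num_tail {N A : ℕ} (hN : 1 ≤ N) (hA : 4 * N ^ 2 ≤ A) : zN N ^ A * ((N : ℝ≥0∞) + 1) ≤ 1 := by
  have hN' : (1:ℝ) ≤ N := by exact_mod_cast hN
  rw [zN_ofReal N hN]
  set s : ℝ := 1 + 1 / (N : ℝ) with hs
  have hs1 : 1 ≤ s := by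
    rw [hs]
    have : (0:ℝ) ≤ 1 / (N : ℝ) := by positivity
    linarith
  have h1 : 1 + 4 * (N : ℝ) ≤ s ^ A := by
    have h2 : s ^ (4 * N ^ 2) ≤ s ^ A := pow_le_pow_right₀ hs1 hA
    have := one_add_mul_le_pow (a := 1 / (N : ℝ)) (by
      have : (0:ℝ) ≤ 1 / (N : ℝ) := by positivity
      linarith) (4 * N ^ 2)
    refine le_trans (le_of_eq ?_) (this.trans h2)
    push_cast
    field_simp
  have h0 : 0 ≤ s⁻¹ := by positivity
  have e3 : ((N : ℝ≥0∞) + 1) = ENNReal.ofReal ((N : ℝ) + 1) := by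
    rw [ENNReal.ofReal_add (by positivity) zero_le_one, ENNReal.ofReal_natCast, ENNReal.ofReal_one]
  rw [← ENNReal.ofReal_pow h0, e3, ← ENNReal.ofReal_mul (by positivity), ← ENNReal.ofReal_one]
  apply ENNReal.ofReal_le_ofReal
  rw [inv_pow]
  have h11 : 0 < s ^ A := by positivity
  rw [inv_mul_le_iff₀ h11]
  linarith

end Pool.Agent.Work.MP_376faf_co_log
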