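import Mathlib

/-! The abstract injection lemma (notes 3118, 3137 on MP_376faf_co, section 3): a signed quadratic
form and Hall's theorem. -/

set_option autoImplicit false

namespace Pool.Agent.Work.MP_376faf_co_log

open Finset

/-- folding system: `O` hairpins, `E` bridges, `R w`, `L w` marks of the bridge `w`, `φ w i` the
fold of `w` at `i`, `T w i j` the double fold, `σ` signs, `(u h, t h)` the unfolding at the top -/
structure FSys {α β : Type} (O : Finset α) (E : Finset β) (R L : β → Finset ℕ)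
    (φ : β → ℕ → α) (σ : β → ℕ → ℝ) (T : β → ℕ → ℕ → β) (u : α → β) (t : α → ℕ) : Prop where
  sw : ∀ w ∈ E, ∀ i ∈ R w, ∀ j ∈ L w, i < j → T w i j ∈ E ∧ i ∈ R (T w i j) ∧ j ∈ L (T w i j) ∧
    T (T w i j) i j = w ∧ φ (T w i j) i = φ w j ∧ φ (T w i j) j = φ w i ∧ σ (T w i j) j = - σ w j
  sg : ∀ w ∈ E, ∀ j ∈ L w, |σ w j| ≤ 1
  s0 : ∀ w ∈ E, ∀ j ∈ L w, σ w j ≠ 0
  di : ∀ w ∈ E, ∀ i ∈ R w, i ∈ L w → σ w i = 1
  un : ∀ h ∈ O, u h ∈ E ∧ t h ∈ R (u h) ∧ t h ∈ L (u h) ∧ φ (u h) (t h) = h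

variable {α β : Type} {O : Finset α} {E : Finset β} {R L : β → Finset ℕ}
    {φ : β → ℕ → α} {σ : β → ℕ → ℝ} {T : β → ℕ → ℕ → β} {u : α → β} {t : α → ℕ}

/-- the term of the triple `(w, i, j)` -/
noncomputable def aa (φ : β → ℕ → α) (σ : β → ℕ → ℝ) (ε : ℝ) (f : α → ℝ) (p : (_ : β) × (ℕ × ℕ)) :
    ℝ := (ε ^ p.2.1 * f (φ p.1 p.2.1)) * ((ε ^ p.2.2)⁻¹ * σ p.1 p.2.2 * f (φ p.1 p.2.2))

theorem sum_lt (hF : FSys O E R L φ σ T u t) (ε : ℝ) (f : α → ℝ) :
    ∑ p ∈ (E.sigma (fun w => R w ×ˢ L w)).filter (fun p => p.2.1 < p.2.2), aa φ σ ε f p = 0 := by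
  classical
  have key : ∀ p ∈ (E.sigma (fun w => R w ×ˢ L w)).filter (fun p => p.2.1 < p.2.2),
      p.1 ∈ E ∧ p.2.1 ∈ R p.1 ∧ p.2.2 ∈ L p.1 ∧ p.2.1 < p.2.2 := by
    intro p hp
    rw [mem_filter, mem_sigma, mem_product] at hp
    exact ⟨hp.1.1, hp.1.2.1, hp.1.2.2, hp.2⟩
  refine sum_involution (fun p _ => ⟨T p.1 p.2.1 p.2.2, p.2⟩) ?_ ?_ ?_ ?_
  · intro p hp
    obtain ⟨h1, h2, h3, h4⟩ := key p hp
    obtain ⟨_, _, _, _, e1, e2, e3⟩ := hF.sw _ h1 _ h2 _ h3 h4
    unfold aa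
    simp only
    rw [e1, e2, e3]
    ring
  · intro p hp hne heq
    obtain ⟨h1, h2, h3, h4⟩ := key p hp
    obtain ⟨_, _, _, _, e1, e2, e3⟩ := hF.sw _ h1 _ h2 _ h3 h4
    have h5 : T p.1 p.2.1 p.2.2 = p.1 := congrArg Sigma.fst heq
    rw [h5] at e3
    have := hF.s0 _ h1 _ h3
    apply this
    linarith
  · intro p hp
    obtain ⟨h1, h2, h3, h4⟩ := key p hp
    obtain ⟨g1, g2, g3, _⟩ := hF.sw _ h1 _ h2 _ h3 h4
    rw [mem_filter, mem_sigma, mem_product]
    exact ⟨⟨g1, g2, g3⟩, h4⟩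
  · intro p hp
    obtain ⟨h1, h2, h3, h4⟩ := key p hp
    obtain ⟨_, _, _, g4, _⟩ := hF.sw _ h1 _ h2 _ h3 h4
    simp only
    rw [g4]

theorem exists_eps (hF : FSys O E R L φ σ T u t) : ∃ ε : ℝ, 0 < ε ∧ ∀ f : α → ℝ,
    (∀ a ∉ O, f a = 0) → (∀ w ∈ E, ∑ i ∈ R w, ε ^ i * f (φ w i) = 0) → ∀ a, f a = 0 := by
  classical
  set X := E.sigma (fun w => R w ×ˢ L w) with hX
  set ε : ℝ := ((X.card : ℝ) + 2)⁻¹ with hε
  have hε0 : 0 < ε := by positivity
  have hε1 : ε ≤ 1 := by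
    rw [hε]
    apply inv_le_one_of_one_le₀
    have : (0:ℝ) ≤ X.card := Nat.cast_nonneg _
    linarith
  refine ⟨ε, hε0, fun f hf hA => ?_⟩
  by_contra hcon
  push Not at hcon
  obtain ⟨a0, ha0⟩ := hcon
  -- maximal entry
  have ha0O : a0 ∈ O := by
    by_contra h
    exact ha0 (hf a0 h)
  obtain ⟨b, hbO, hb⟩ := exists_max_image O (fun a => |f a|) ⟨a0, ha0O⟩
  set M := |f b| with hM
  have hM0 : 0 < M := lt_of_lt_of_le (abs_pos.2 ha0) (hb a0 ha0O)
  have hMa : ∀ a, |f a| ≤ M := by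
    intro a
    by_cases h : a ∈ O
    · exact hb a h
    · rw [hf a h, abs_zero]; exact hM0.le
  -- total sum is zero
  have h0 : ∑ p ∈ X, aa φ σ ε f p = 0 := by
    rw [hX, sum_sigma]
    refine sum_eq_zero fun w hw => ?_
    have : ∑ p ∈ R w ×ˢ L w, aa φ σ ε f ⟨w, p⟩ = (∑ i ∈ R w, ε ^ i * f (φ w i)) *
        ∑ j ∈ L w, ((ε ^ j)⁻¹ * σ w j * f (φ w j)) := by
      rw [sum_mul_sum, sum_product]
      rfl
    rw [this, hA w hw, zero_mul]
  -- splitting
  have h1 : ∑ p ∈ X, aa φ σ ε f p = ∑ p ∈ X.filter (fun p => p.2.1 < p.2.2), aa φ σ ε f p +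
      (∑ p ∈ X.filter (fun p => p.2.1 = p.2.2), aa φ σ ε f p +
      ∑ p ∈ X.filter (fun p => p.2.2 < p.2.1), aa φ σ ε f p) := by
    rw [← sum_filter_add_sum_filter_not X (fun p => p.2.1 < p.2.2)]
    congr 1
    rw [← sum_filter_add_sum_filter_not (X.filter (fun p => ¬ p.2.1 < p.2.2))
      (fun p => p.2.1 = p.2.2), filter_filter, filter_filter]
    congr 1
    · refine sum_congr (filter_congr fun p _ => ?_) fun _ _ => rfl
      omega
    · refine sum_congr (filter_congr fun p _ => ?_) fun _ _ => rfl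
      omega
  rw [h0, sum_lt hF, zero_add] at h1
  -- the diagonal
  have h2 : M ^ 2 ≤ ∑ p ∈ X.filter (fun p => p.2.1 = p.2.2), aa φ σ ε f p := by
    have hnn : ∀ p ∈ X.filter (fun p => p.2.1 = p.2.2), aa φ σ ε f p = f (φ p.1 p.2.1) ^ 2 := by
      rintro ⟨w, i, j⟩ hp
      rw [mem_filter, hX, mem_sigma, mem_product] at hp
      obtain ⟨⟨h3, h4, h5⟩, h6⟩ := hp
      simp only at h3 h4 h5 h6
      subst h6
      unfold aa
      simp only
      rw [hF.di w h3 i h4 h5]
      have : ε ^ i ≠ 0 := (pow_pos hε0 i).ne'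
      field_simp
    rw [sum_congr rfl hnn]
    obtain ⟨g1, g2, g3, g4⟩ := hF.un b hbO
    have hmem : (⟨u b, (t b, t b)⟩ : (_ : β) × (ℕ × ℕ)) ∈ X.filter (fun p => p.2.1 = p.2.2) := by
      rw [mem_filter, hX, mem_sigma, mem_product]
      exact ⟨⟨g1, g2, g3⟩, rfl⟩
    refine le_trans ?_ (single_le_sum (f := fun p : (_ : β) × (ℕ × ℕ) => f (φ p.1 p.2.1) ^ 2)
      (fun p _ => sq_nonneg _) hmem)
    simp only
    rw [g4, hM, sq_abs]
  -- the rest
  have h3 : |∑ p ∈ X.filter (fun p => p.2.2 < p.2.1), aa φ σ ε f p| ≤ X.card * (ε * M ^ 2) := by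
    refine (abs_sum_le_sum_abs _ _).trans ?_
    have h4 : ∀ p ∈ X.filter (fun p => p.2.2 < p.2.1), |aa φ σ ε f p| ≤ ε * M ^ 2 := by
      rintro ⟨w, i, j⟩ hp
      rw [mem_filter, hX, mem_sigma, mem_product] at hp
      obtain ⟨⟨h5, h6, h7⟩, h8⟩ := hp
      simp only at h5 h6 h7 h8
      unfold aa
      simp only
      rw [abs_mul, abs_mul, abs_mul, abs_mul, abs_inv, abs_pow, abs_pow, abs_of_pos hε0]
      have e1 : ε ^ i = ε ^ j * ε ^ (i - j) := by
        rw [← pow_add]; congr 1; omega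
      have e2 : ε ^ (i - j) ≤ ε := by
        calc ε ^ (i - j) ≤ ε ^ 1 := pow_le_pow_of_le_one hε0.le hε1 (by omega)
          _ = ε := pow_one ε
      have e3 := hF.sg w h5 j h7
      have e4 := hMa (φ w i)
      have e5 := hMa (φ w j)
      have e6 : ε ^ j ≠ 0 := (pow_pos hε0 j).ne'
      rw [e1]
      calc ε ^ j * ε ^ (i - j) * |f (φ w i)| * ((ε ^ j)⁻¹ * |σ w j| * |f (φ w j)|)
          = ε ^ (i - j) * (|f (φ w i)| * |σ w j| * |f (φ w j)|) := by field_simp
        _ ≤ ε * (M * 1 * M) := by gcongr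
        _ = _ := by ring
    calc ∑ p ∈ X.filter (fun p => p.2.2 < p.2.1), |aa φ σ ε f p|
        ≤ ∑ p ∈ X.filter (fun p => p.2.2 < p.2.1), ε * M ^ 2 := sum_le_sum h4
      _ = ((X.filter (fun p => p.2.2 < p.2.1)).card : ℝ) * (ε * M ^ 2) := by
          rw [sum_const, nsmul_eq_mul]
      _ ≤ _ := by
          gcongr
          exact filter_subset _ _
  have h4 : (X.card : ℝ) * (ε * M ^ 2) < M ^ 2 := by
    have h5 : (X.card : ℝ) * ε < 1 := by
      rw [hε, ← div_eq_mul_inv, div_lt_one (by positivity)]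
      linarith
    have h6 : 0 < M ^ 2 := by positivity
    nlinarith
  have h5 := neg_abs_le (∑ p ∈ X.filter (fun p => p.2.2 < p.2.1), aa φ σ ε f p)
  linarith

/-- Injection lemma. -/
theorem ferm_inj (hF : FSys O E R L φ σ T u t) : ∃ g : α → β, Set.InjOn g O ∧
    ∀ h ∈ O, g h ∈ E ∧ ∃ i ∈ R (g h), φ (g h) i = h := by
  classical
  obtain ⟨ε, hε0, hε⟩ := exists_eps hF
  set nb : O → Finset β := fun h => E.filter (fun w => ∃ i ∈ R w, φ w i = h.1) with hnb
  have hall : ∀ s : Finset O, s.card ≤ (s.biUnion nb).card := by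
    intro s
    set N := s.biUnion nb with hN
    -- the linear map
    let A : (s → ℝ) →ₗ[ℝ] (N → ℝ) :=
      { toFun := fun f w => ∑ i ∈ R w.1, ε ^ i *
          (if h : ∃ a : s, a.1.1 = φ w.1 i then f h.choose else 0)
        map_add' := by
          intro f g
          funext w
          simp only [Pi.add_apply]
          rw [← sum_add_distrib]
          refine sum_congr rfl fun i _ => ?_
          split_ifs <;> ring
        map_smul' := by
          intro c f
          funext w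
          simp only [Pi.smul_apply, smul_eq_mul, RingHom.id_apply]
          rw [mul_sum]
          refine sum_congr rfl fun i _ => ?_
          split_ifs <;> ring }
    have hA : Function.Injective A := by
      rw [← LinearMap.ker_eq_bot, LinearMap.ker_eq_bot']
      intro f hf
      set F : α → ℝ := fun a => if h : ∃ b : s, b.1.1 = a then f h.choose else 0 with hFdef
      have hF0 : ∀ a ∉ O, F a = 0 := by
        intro a ha
        simp only [hFdef]
        rw [dif_neg]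
        rintro ⟨b, hb⟩
        exact ha (hb ▸ b.1.2)
      have hz : ∀ w ∈ E, ∑ i ∈ R w, ε ^ i * F (φ w i) = 0 := by
        intro w hw
        by_cases hwN : w ∈ N
        · have := congrFun hf ⟨w, hwN⟩
          exact this
        · refine sum_eq_zero fun i hi => ?_
          have : F (φ w i) = 0 := by
            simp only [hFdef]
            rw [dif_neg]
            rintro ⟨b, hb⟩
            apply hwN
            rw [hN, mem_biUnion]
            refine ⟨b.1, b.2, ?_⟩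
            rw [hnb, mem_filter]
            exact ⟨hw, i, hi, hb.symm⟩
          rw [this, mul_zero]
      have hall := hε F hF0 hz
      funext b
      have h1 := hall b.1.1
      simp only [hFdef] at h1
      have h2 : ∃ b' : s, b'.1.1 = b.1.1 := ⟨b, rfl⟩
      rw [dif_pos h2] at h1
      have h3 : h2.choose = b := Subtype.ext (Subtype.ext h2.choose_spec)
      rw [h3] at h1
      exact h1
    have := LinearMap.finrank_le_finrank_of_injective hA
    rw [Module.finrank_fintype_fun_eq_card, Module.finrank_fintype_fun_eq_card,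
      Fintype.card_coe, Fintype.card_coe] at this
    exact this
  obtain ⟨g, hg, hg2⟩ := (all_card_le_biUnion_card_iff_exists_injective nb).1 hall
  refine ⟨fun a => if h : a ∈ O then g ⟨a, h⟩ else u a, ?_, ?_⟩
  · intro a ha b hb hab
    have ha' : a ∈ O := ha
    have hb' : b ∈ O := hb
    simp only at hab
    rw [dif_pos ha', dif_pos hb'] at hab
    exact congrArg Subtype.val (hg hab)
  · intro a ha
    simp only
    rw [dif_pos ha]
    have := hg2 ⟨a, ha⟩
    rw [hnb, mem_filter] at this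
    exact this

end Pool.Agent.Work.MP_376faf_co_log
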