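import Pool.Agent.Work.MP_376faf_co_neps.FinalE

/-! Module FinalL: from the bound `exp (C (k + 1) ^ a)` for half-plane walks (`m ≤ 2 ^ k`) to the
bounds for walks, bridges and polygons with corrections `exp (± C (log n) ^ b)`. -/

set_option autoImplicit false

namespace Pool.Agent.Work.MP_376faf_co_log

open Pool.Agent.Work.MP_376faf_co_lower Pool.Agent.Work.MP_376faf_co_hw
open Pool.Agent.Work.MP_376faf_co_neps
open Filter Topology
open scoped ENNReal

/-- the bound for the half-plane walks with short pieces -/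
def HalfL (a : ℕ) (C μ : ℝ) : Prop := ∀ (m n k : ℕ), 1 ≤ m → m ≤ 2 ^ k → ∀ (y : ℝ≥0∞),
    (∀ l < m, y ^ l ≤ 2 * (ENNReal.ofReal μ)⁻¹ ^ l) →
    ∑ T ∈ Finset.range n, mass y (LoB m n (T + 1)) ≤ ((2 ^ k : ℝ≥0∞) ^ 3)⁻¹ →
    mass y (fun l => Half l ∧ l.length ≤ n) ≤ ENNReal.ofReal (Real.exp (C * ((k : ℝ) + 1) ^ a))

/-- the logarithm -/
def lg (n : ℕ) : ℕ := Nat.log 2 n + 1

theorem lg_pos (n : ℕ) : 1 ≤ lg n := by unfold lg; omega

theorem lt_two_pow_lg (n : ℕ) : n < 2 ^ lg n := Nat.lt_pow_succ_log_self (by norm_num) n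

theorem lg_mono {m n : ℕ} (h : m ≤ n) : lg m ≤ lg n := by
  unfold lg
  have := Nat.log_mono_right (b := 2) h
  omega

theorem lg_half {r n : ℕ} (hr : 1 ≤ r) (h : 2 * r ≤ n) : lg r + 1 ≤ lg n := by
  unfold lg
  have h1 : Nat.log 2 r + 1 ≤ Nat.log 2 n := by
    rw [Nat.le_log_iff_pow_le (by norm_num) (by omega), pow_succ]
    have := Nat.pow_log_le_self 2 (x := r) (by omega)
    omega
  omega

theorem lg_le_log {n : ℕ} (hn : 2 ≤ n) : (lg n : ℝ) ≤ 3 * Real.log n := by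
  have hn0 : (0:ℝ) < n := by exact_mod_cast (by omega : 0 < n)
  have h1 : ((2:ℝ)) ^ Nat.log 2 n ≤ n := by
    exact_mod_cast Nat.pow_log_le_self 2 (x := n) (by omega)
  have h2 := Real.log_le_log (by positivity) h1
  rw [Real.log_pow] at h2
  have h3 := Real.log_two_gt_d9
  have h4 : Real.log 2 ≤ Real.log n := Real.log_le_log (by norm_num) (by exact_mod_cast hn)
  have h0 : (0:ℝ) ≤ (Nat.log 2 n : ℝ) := Nat.cast_nonneg _
  unfold lg
  push_cast
  nlinarith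

/-- upper bound for the number of walks -/
theorem upper_l {a : ℕ} {C μ : ℝ} (hμ : 1 ≤ μ) (hC : 0 ≤ C) (hh : HalfL a C μ) :
    ∃ C' : ℝ, 0 < C' ∧ ∀ n : ℕ, 2 ≤ n →
      (Nat.card (WalkFun n) : ℝ) ≤ μ ^ n * Real.exp (C' * (Real.log n) ^ a) := by
  have hμ0 : 0 < μ := by linarith
  have hlμ : 0 ≤ Real.log μ := Real.log_nonneg hμ
  refine ⟨2 * C * 12 ^ a + Real.log μ * 2 ^ a + 1, by positivity, fun n hn => ?_⟩
  have hn2 : (2:ℝ) ≤ n := by exact_mod_cast hn
  set k := lg (n + 2) with hk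
  have hx : (ENNReal.ofReal μ)⁻¹ = ENNReal.ofReal μ⁻¹ := FinalHW.inv_eq hμ
  have hhalf := hh (n + 2) (n + 1) k (by omega) (lt_two_pow_lg _).le (ENNReal.ofReal μ⁻¹) ?_ ?_
  · have h1 := FinalHW.walk_le (y := μ⁻¹) (by positivity) (Real.exp_pos _).le hhalf
    have h2 : (Nat.card (WalkFun n) : ℝ) ≤ Real.exp (C * ((k:ℝ) + 1) ^ a) ^ 2 * μ ^ (n + 1) := by
      rw [inv_pow, ← div_eq_mul_inv, div_le_iff₀ (by positivity)] at h1
      exact h1
    refine h2.trans ?_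
    -- k + 1 ≤ 12 log n
    have hlog : Real.log 2 ≤ Real.log n := Real.log_le_log (by norm_num) hn2
    have hl2 := Real.log_two_gt_d9
    have hk1 : (k:ℝ) + 1 ≤ 12 * Real.log n := by
      have h3 := lg_le_log (n := n + 2) (by omega)
      rw [← hk] at h3
      have h4 : Real.log ((n + 2 : ℕ) : ℝ) ≤ Real.log 2 + Real.log n := by
        rw [← Real.log_mul (by norm_num) (by positivity)]
        refine Real.log_le_log (by positivity) ?_
        push_cast
        linarith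
      linarith
    have hk0 : (0:ℝ) ≤ (k:ℝ) + 1 := by positivity
    have hL0 : 0 ≤ Real.log n := by linarith
    have h5 : ((k:ℝ) + 1) ^ a ≤ 12 ^ a * (Real.log n) ^ a := by
      rw [← mul_pow]
      exact pow_le_pow_left₀ hk0 hk1 a
    have h6 : (1:ℝ) ≤ 2 ^ a * (Real.log n) ^ a := by
      rw [← mul_pow]
      exact one_le_pow₀ (by linarith)
    have hLa : 0 ≤ (Real.log n) ^ a := pow_nonneg hL0 a
    calc Real.exp (C * ((k:ℝ) + 1) ^ a) ^ 2 * μ ^ (n + 1)
        = μ ^ n * Real.exp (2 * (C * ((k:ℝ) + 1) ^ a) + Real.log μ) := by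
          rw [Real.exp_add, Real.exp_log hμ0, ← Real.exp_nat_mul]
          push_cast
          ring
      _ ≤ μ ^ n * Real.exp ((2 * C * 12 ^ a + Real.log μ * 2 ^ a + 1) * (Real.log n) ^ a) := by
          refine mul_le_mul_of_nonneg_left (Real.exp_le_exp.2 ?_) (by positivity)
          have h7 : C * ((k:ℝ) + 1) ^ a ≤ C * (12 ^ a * (Real.log n) ^ a) := by gcongr
          have h8 : Real.log μ * 1 ≤ Real.log μ * (2 ^ a * (Real.log n) ^ a) := by gcongr
          nlinarith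
  · intro l _
    rw [hx]
    calc ENNReal.ofReal μ⁻¹ ^ l = 1 * ENNReal.ofReal μ⁻¹ ^ l := (one_mul _).symm
      _ ≤ 2 * ENNReal.ofReal μ⁻¹ ^ l := mul_le_mul_left one_le_two _
  · refine (lo_le (ENNReal.ofReal μ⁻¹) (by omega)).trans ?_
    rw [Finset.Icc_eq_empty (by omega), Finset.sum_empty]
    exact zero_le

/-- a good length -/
theorem good_len_l {a : ℕ} {C μ : ℝ} (hμ : 1 ≤ μ) (hh : HalfL a C μ)
    (hc : ∀ n : ℕ, μ ^ n ≤ (Nat.card (WalkFun n) : ℝ)) {m n k : ℕ} (hm : 1 ≤ m) (hmn : m ≤ n)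
    (hk : m ≤ 2 ^ k) (hkn : (2 ^ k) ^ 3 ≤ n ^ 3)
    (hlt : Real.exp (C * ((k : ℝ) + 1) ^ a) ^ 2 * μ < (2:ℝ) ^ ((n:ℝ) / (m:ℝ))) :
    ∃ l, m ≤ l ∧ l ≤ n ∧ (n:ℝ)⁻¹ ^ 4 * (2:ℝ) ^ (-(2 * (l:ℝ) / (m:ℝ))) ≤ (bn l : ℝ) / μ ^ l := by
  by_contra hcon
  push Not at hcon
  have hμ0 : 0 < μ := by linarith
  have hm0 : (0:ℝ) < m := by exact_mod_cast hm
  have hn1 : 1 ≤ n := hm.trans hmn
  have hn0 : (1:ℝ) ≤ n := by exact_mod_cast hn1
  have hn00 : (0:ℝ) < n := by linarith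
  set θ : ℝ := (2:ℝ) ^ ((1:ℝ) / (m:ℝ)) with hθ
  have hθ0 : 0 < θ := Real.rpow_pos_of_pos (by norm_num) _
  have hθl : ∀ l : ℕ, θ ^ l = (2:ℝ) ^ ((l:ℝ) / (m:ℝ)) := by
    intro l
    rw [hθ, ← Real.rpow_natCast, ← Real.rpow_mul (by norm_num)]
    congr 1
    ring
  set y : ℝ := μ⁻¹ * θ with hy
  have hy0 : 0 < y := by positivity
  have hx : (ENNReal.ofReal μ)⁻¹ = ENNReal.ofReal μ⁻¹ := FinalHW.inv_eq hμ
  have hhalf := hh m n k hm hk (ENNReal.ofReal y) ?_ ?_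
  · have hH : mass (ENNReal.ofReal y) (fun l => Half l ∧ l.length ≤ (n - 1) + 1) ≤
        ENNReal.ofReal (Real.exp (C * ((k : ℝ) + 1) ^ a)) := by
      rw [Nat.sub_add_cancel hn1]
      exact hhalf
    have h1 := FinalHW.walk_le hy0.le (Real.exp_pos _).le hH
    rw [Nat.sub_add_cancel hn1] at h1
    have h2 : μ ^ (n - 1) * y ^ n ≤ Real.exp (C * ((k : ℝ) + 1) ^ a) ^ 2 :=
      (mul_le_mul_of_nonneg_right (hc (n - 1)) (by positivity)).trans h1
    have h3 : μ ^ (n - 1) * y ^ n = (2:ℝ) ^ ((n:ℝ) / (m:ℝ)) / μ := by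
      rw [hy, mul_pow, hθl]
      have h4 : μ ^ n = μ ^ (n - 1) * μ := by
        conv_lhs => rw [← Nat.sub_add_cancel hn1, pow_succ]
      rw [inv_pow, h4]
      field_simp
    rw [h3, div_le_iff₀ hμ0] at h2
    linarith
  · intro l hl
    rw [hx, ← ENNReal.ofReal_pow hy0.le, ← ENNReal.ofReal_pow (by positivity)]
    have h1 : y ^ l ≤ 2 * μ⁻¹ ^ l := by
      rw [hy, mul_pow, hθl, mul_comm]
      refine mul_le_mul_of_nonneg_right ?_ (by positivity)
      calc (2:ℝ) ^ ((l:ℝ) / (m:ℝ)) ≤ (2:ℝ) ^ (1:ℝ) := by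
            refine Real.rpow_le_rpow_of_exponent_le (by norm_num) ?_
            rw [div_le_one hm0]
            exact_mod_cast hl.le
        _ = 2 := Real.rpow_one 2
    calc ENNReal.ofReal (y ^ l) ≤ ENNReal.ofReal (2 * μ⁻¹ ^ l) := ENNReal.ofReal_le_ofReal h1
      _ = 2 * ENNReal.ofReal (μ⁻¹ ^ l) := by
          rw [ENNReal.ofReal_mul (by norm_num)]
          norm_num
  · refine (lo_le (ENNReal.ofReal y) hm).trans ?_
    have h1 : ∀ l ∈ Finset.Icc m n, (bn l : ℝ≥0∞) * ENNReal.ofReal y ^ l ≤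
        ENNReal.ofReal ((n:ℝ)⁻¹ ^ 4) := by
      intro l hl
      rw [Finset.mem_Icc] at hl
      rw [← ENNReal.ofReal_pow hy0.le, ← ENNReal.ofReal_natCast,
        ← ENNReal.ofReal_mul (Nat.cast_nonneg _)]
      refine ENNReal.ofReal_le_ofReal ?_
      have h2 := (hcon l hl.1 hl.2).le
      have h3 : (bn l : ℝ) * y ^ l = (bn l : ℝ) / μ ^ l * θ ^ l := by
        rw [hy, mul_pow, inv_pow]
        field_simp
      rw [h3]
      have h4 : (2:ℝ) ^ (-(2 * (l:ℝ) / (m:ℝ))) * θ ^ l ≤ 1 := by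
        rw [hθl, ← Real.rpow_add (by norm_num)]
        refine Real.rpow_le_one_of_one_le_of_nonpos (by norm_num) ?_
        have : 0 ≤ (l:ℝ) / (m:ℝ) := by positivity
        have h5 : 2 * (l:ℝ) / (m:ℝ) = 2 * ((l:ℝ) / (m:ℝ)) := by ring
        rw [h5]
        linarith
      calc (bn l : ℝ) / μ ^ l * θ ^ l ≤
          ((n:ℝ)⁻¹ ^ 4 * (2:ℝ) ^ (-(2 * (l:ℝ) / (m:ℝ)))) * θ ^ l :=
            mul_le_mul_of_nonneg_right h2 (by positivity)
        _ = (n:ℝ)⁻¹ ^ 4 * ((2:ℝ) ^ (-(2 * (l:ℝ) / (m:ℝ))) * θ ^ l) := by ring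
        _ ≤ (n:ℝ)⁻¹ ^ 4 * 1 := mul_le_mul_of_nonneg_left h4 (by positivity)
        _ = (n:ℝ)⁻¹ ^ 4 := mul_one _
    calc ∑ l ∈ Finset.Icc m n, (bn l : ℝ≥0∞) * ENNReal.ofReal y ^ l
        ≤ ∑ l ∈ Finset.Icc m n, ENNReal.ofReal ((n:ℝ)⁻¹ ^ 4) := Finset.sum_le_sum h1
      _ = ((Finset.Icc m n).card : ℝ≥0∞) * ENNReal.ofReal ((n:ℝ)⁻¹ ^ 4) := by
          rw [Finset.sum_const, nsmul_eq_mul]
      _ ≤ (n : ℝ≥0∞) * ENNReal.ofReal ((n:ℝ)⁻¹ ^ 4) := by
          refine mul_le_mul_left ?_ _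
          rw [Nat.card_Icc]
          exact_mod_cast (by omega : n + 1 - m ≤ n)
      _ = ENNReal.ofReal ((n:ℝ) ^ 3)⁻¹ := by
          rw [← ENNReal.ofReal_natCast, ← ENNReal.ofReal_mul (Nat.cast_nonneg _)]
          congr 1
          field_simp
      _ ≤ ((2 ^ k : ℝ≥0∞) ^ 3)⁻¹ := by
          rw [ENNReal.ofReal_inv_of_pos (by positivity), ENNReal.inv_le_inv]
          have h2 : ((2 ^ k : ℝ≥0∞) ^ 3) = ((((2 ^ k) ^ 3 : ℕ)) : ℝ≥0∞) := by push_cast; rfl
          have h3 : ENNReal.ofReal ((n:ℝ) ^ 3) = (((n ^ 3 : ℕ)) : ℝ≥0∞) := by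
            rw [← ENNReal.ofReal_natCast]
            push_cast
            rfl
          rw [h2, h3]
          exact_mod_cast hkn

/-- choice of the parameters: `m = n / J`, `J = K (lg n) ^ a` -/
theorem params_l {a : ℕ} {C μ : ℝ} (hμ : 1 ≤ μ) (hC : 0 ≤ C) : ∃ K N0 : ℕ, 1 ≤ K ∧ ∀ n ≥ N0,
    ∃ m k : ℕ, 1 ≤ m ∧ m ≤ n ∧ m ≤ 2 ^ k ∧ (2 ^ k) ^ 3 ≤ n ^ 3 ∧
      (n:ℝ) ≤ 2 * ((K * lg n ^ a : ℕ) : ℝ) * m ∧
      Real.exp (C * ((k : ℝ) + 1) ^ a) ^ 2 * μ < (2:ℝ) ^ ((n:ℝ) / (m:ℝ)) := by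
  have hμ0 : 0 < μ := by linarith
  have hlμ : 0 ≤ Real.log μ := Real.log_nonneg hμ
  obtain ⟨K, hK⟩ := exists_nat_gt (max 2 (2 * (2 * C * 2 ^ a + Real.log μ + 1)))
  have hK2 : (2:ℝ) < K := lt_of_le_of_lt (le_max_left _ _) hK
  have hK3 : 2 * (2 * C * 2 ^ a + Real.log μ + 1) < K := lt_of_le_of_lt (le_max_right _ _) hK
  have hK1 : 2 < K := by exact_mod_cast hK2
  -- eventually `J ≤ n`
  obtain ⟨N0, hN0⟩ : ∃ N0 : ℕ, ∀ n ≥ N0, 2 * (K * lg n ^ a) ≤ n := by
    have h1 : Tendsto (fun L : ℕ => ((2 * K * (L:ℝ) ^ a) / 2 ^ L * 2 : ℝ)) atTop (𝓝 0) := by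
      have h2 : Tendsto (fun L : ℕ => (L:ℝ) ^ a / 2 ^ L) atTop (𝓝 0) :=
        tendsto_pow_const_div_const_pow_of_one_lt a (by norm_num)
      have h3 := (h2.const_mul (2 * (K:ℝ))).mul_const 2
      simp only [mul_zero, zero_mul] at h3
      refine h3.congr fun L => ?_
      ring
    obtain ⟨L0, hL0⟩ := eventually_atTop.1 (h1.eventually (gt_mem_nhds (show (0:ℝ) < 1 by norm_num)))
    refine ⟨2 ^ L0, fun n hn => ?_⟩
    have hn0 : n ≠ 0 := by
      have : 0 < 2 ^ L0 := by positivity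
      omega
    have hL : L0 ≤ lg n := by
      unfold lg
      have := (Nat.le_log_iff_pow_le (b := 2) (by norm_num) hn0).2 hn
      omega
    have h4 := hL0 (lg n) hL
    have h5 : (2:ℝ) ^ lg n ≤ 2 * n := by
      have h6 := Nat.pow_log_le_self 2 hn0
      unfold lg
      rw [pow_succ, mul_comm]
      exact_mod_cast Nat.mul_le_mul_left 2 h6
    have h6 : (2 * K * (lg n:ℝ) ^ a) * 2 < 2 ^ lg n := by
      have h7 : (0:ℝ) < 2 ^ lg n := by positivity
      rw [div_mul_eq_mul_div, div_lt_one h7] at h4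
      exact h4
    have h7 : ((2 * (K * lg n ^ a) : ℕ) : ℝ) ≤ (n:ℝ) := by
      push_cast
      nlinarith
    exact_mod_cast h7
  refine ⟨K, max N0 1, by omega, fun n hn => ?_⟩
  have hJn := hN0 n ((le_max_left _ _).trans hn)
  have hn1 : 1 ≤ n := (le_max_right _ _).trans hn
  set J := K * lg n ^ a with hJ
  have hlg1 : 1 ≤ lg n ^ a := Nat.one_le_pow _ _ (lg_pos n)
  have hJK : K ≤ J := Nat.le_mul_of_pos_right K hlg1
  have hJ0 : 0 < J := by omega
  have hJr : (0:ℝ) < J := by exact_mod_cast hJ0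
  refine ⟨n / J, Nat.log 2 n, ?_, Nat.div_le_self _ _, ?_, ?_, ?_, ?_⟩
  · rw [Nat.one_le_div_iff hJ0]
    omega
  · -- `n / J ≤ 2 ^ log n`
    have h1 : n < 2 ^ (Nat.log 2 n + 1) := Nat.lt_pow_succ_log_self (by norm_num) n
    have h2 : n / J ≤ n / 2 := Nat.div_le_div_left (by omega) (by norm_num)
    rw [pow_succ] at h1
    omega
  · exact Nat.pow_le_pow_left (Nat.pow_log_le_self 2 (by omega)) 3
  · have h1 : n < J * (n / J + 1) := by
      have := Nat.lt_mul_div_succ n hJ0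
      simpa using this
    have h2 : 1 ≤ n / J := by
      rw [Nat.one_le_div_iff hJ0]
      omega
    have h3 : n ≤ 2 * J * (n / J) := by
      calc n ≤ J * (n / J + 1) := h1.le
        _ ≤ J * (n / J + n / J) := Nat.mul_le_mul_left _ (by omega)
        _ = _ := by ring
    have h4 : ((n : ℕ) : ℝ) ≤ ((2 * J * (n / J) : ℕ) : ℝ) := by exact_mod_cast h3
    push_cast at h4 ⊢
    simpa using h4
  · have hm1 : 1 ≤ n / J := by
      rw [Nat.one_le_div_iff hJ0]
      omega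
    have hmr : (0:ℝ) < ((n / J : ℕ) : ℝ) := by exact_mod_cast hm1
    have h1 : (J:ℝ) ≤ (n:ℝ) / ((n / J : ℕ) : ℝ) := by
      rw [le_div_iff₀ hmr]
      have := Nat.mul_div_le n J
      exact_mod_cast this
    have hlk : ((Nat.log 2 n : ℕ) : ℝ) + 1 = (lg n : ℝ) := by
      unfold lg
      push_cast
      ring
    rw [hlk]
    have hlgr : (1:ℝ) ≤ (lg n : ℝ) ^ a := by exact_mod_cast hlg1
    have h2 : Real.exp (C * (lg n : ℝ) ^ a) ^ 2 * μ =
        Real.exp (2 * (C * (lg n : ℝ) ^ a) + Real.log μ) := by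
      rw [Real.exp_add, Real.exp_log hμ0, ← Real.exp_nat_mul]
      push_cast
      ring
    rw [h2, Real.rpow_def_of_pos (by norm_num)]
    apply Real.exp_lt_exp.2
    have h3 := Real.log_two_gt_d9
    have h4 : (K:ℝ) * (lg n : ℝ) ^ a = J := by
      rw [hJ]
      push_cast
      ring
    have h5 : Real.log 2 * J ≤ Real.log 2 * ((n:ℝ) / ((n / J : ℕ) : ℝ)) := by gcongr
    refine lt_of_lt_of_le ?_ h5
    rw [← h4]
    have h6 : 2 * (C * (lg n : ℝ) ^ a) + Real.log μ ≤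
        (2 * C * 2 ^ a + Real.log μ) * (lg n : ℝ) ^ a := by
      have h7 : (1:ℝ) ≤ 2 ^ a := one_le_pow₀ (by norm_num)
      have h8 : 2 * (C * (lg n : ℝ) ^ a) ≤ 2 * C * 2 ^ a * (lg n : ℝ) ^ a := by
        have : 0 ≤ C * (lg n : ℝ) ^ a := by positivity
        nlinarith
      have h9 : Real.log μ ≤ Real.log μ * (lg n : ℝ) ^ a := by nlinarith
      linarith
    have h7 : (2 * C * 2 ^ a + Real.log μ) * (lg n : ℝ) ^ a <
        Real.log 2 * ((K:ℝ) * (lg n : ℝ) ^ a) := by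
      have h8 : 2 * C * 2 ^ a + Real.log μ < Real.log 2 * K := by nlinarith
      have h9 : (0:ℝ) < (lg n : ℝ) ^ a := by linarith
      calc (2 * C * 2 ^ a + Real.log μ) * (lg n : ℝ) ^ a < (Real.log 2 * K) * (lg n : ℝ) ^ a :=
            mul_lt_mul_of_pos_right h8 h9
        _ = _ := by ring
    linarith

/-- subadditive sequences with good lengths -/
theorem F_bound_l {F : ℕ → ℝ} (hsub : ∀ p q, F (p + q) ≤ F p + F q) (h0 : F 0 ≤ 0) {a K N0 : ℕ}
    (ha : 1 ≤ a) (hK : 1 ≤ K)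
    (h : ∀ n ≥ N0, ∃ m l : ℕ, 1 ≤ m ∧ m ≤ l ∧ l ≤ n ∧ (n:ℝ) ≤ 2 * ((K * lg n ^ a : ℕ) : ℝ) * m ∧
      F l ≤ 4 * Real.log n + 2 * (l:ℝ) / m) :
    ∃ B : ℝ, 0 < B ∧ ∀ n : ℕ, F n ≤ B * (lg n : ℝ) ^ (2 * a + 1) := by
  -- bound for small `n`
  obtain ⟨B0, hB0⟩ : ∃ B0 : ℝ, ∀ n < max N0 1, F n ≤ B0 := by
    refine ⟨∑ n ∈ Finset.range (max N0 1), |F n|, fun n hn => ?_⟩
    exact (le_abs_self _).trans (Finset.single_le_sum (f := fun n => |F n|)
      (fun _ _ => abs_nonneg _) (Finset.mem_range.2 hn))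
  set B : ℝ := max B0 0 + 24 * (K:ℝ) ^ 2 + 1 with hB
  have hBB : 0 < B := by
    have : 0 ≤ max B0 0 := le_max_right _ _
    positivity
  refine ⟨B, hBB, fun n => ?_⟩
  induction n using Nat.strong_induction_on with
  | _ n ih =>
    have hL1 : (1:ℝ) ≤ (lg n : ℝ) := by exact_mod_cast lg_pos n
    rcases Nat.lt_or_ge n (max N0 1) with hn | hn
    · have h1 := hB0 n hn
      have h2 : (1:ℝ) ≤ (lg n : ℝ) ^ (2 * a + 1) := one_le_pow₀ hL1
      have h3 : B0 ≤ B := by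
        have := le_max_left B0 0
        have : 0 ≤ 24 * (K:ℝ) ^ 2 := by positivity
        linarith
      nlinarith
    · have hn0 : N0 ≤ n := (le_max_left _ _).trans hn
      have hn1 : 1 ≤ n := (le_max_right _ _).trans hn
      obtain ⟨m, l, hm, hml, hln, hnm, hF⟩ := h n hn0
      have hl : 1 ≤ l := hm.trans hml
      set J : ℝ := ((K * lg n ^ a : ℕ) : ℝ) with hJ
      set q := n / l with hq
      set r := n % l with hr
      have hqr : l * q + r = n := Nat.div_add_mod n l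
      have hq1 : 1 ≤ q := by
        rw [hq, Nat.one_le_div_iff (by omega)]
        exact hln
      have hrl : r < l := Nat.mod_lt _ (by omega)
      have hr2 : 2 * r ≤ n := by nlinarith
      have hrn : r < n := by omega
      -- multiples
      have hmul : ∀ q : ℕ, F (l * q) ≤ q * F l := by
        intro q
        induction q with
        | zero => simpa using h0
        | succ q ih2 =>
          rw [Nat.mul_succ]
          have := hsub (l * q) l
          push_cast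
          linarith
      have h1 : F n ≤ q * F l + F r := by
        have h2 := hsub (l * q) r
        rw [hqr] at h2
        have h3 := hmul q
        linarith
      -- J
      have hLa : (1:ℝ) ≤ (lg n : ℝ) ^ a := one_le_pow₀ hL1
      have hKr : (1:ℝ) ≤ K := by exact_mod_cast hK
      have hJe : J = K * (lg n : ℝ) ^ a := by
        rw [hJ]; push_cast; ring
      have hJ1 : 1 ≤ J := by
        rw [hJe]
        nlinarith
      have hmr : (0:ℝ) < m := by exact_mod_cast hm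
      have hlr : (0:ℝ) < l := by exact_mod_cast hl
      have hmlr : (m:ℝ) ≤ l := by exact_mod_cast hml
      have hnr : (0:ℝ) < n := by exact_mod_cast hn1
      have hqJ : (q:ℝ) ≤ 2 * J := by
        have h3 : (q:ℝ) * l ≤ n := by
          have : l * q ≤ n := by omega
          have h4 : ((l * q : ℕ) : ℝ) ≤ n := by exact_mod_cast this
          push_cast at h4
          linarith
        have h4 : (n:ℝ) ≤ 2 * J * l := by
          calc (n:ℝ) ≤ 2 * J * m := hnm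
            _ ≤ 2 * J * l := by gcongr
        have h5 : (q:ℝ) * l ≤ (2 * J) * l := by linarith
        exact le_of_mul_le_mul_right h5 hlr
      have hlm : 2 * (l:ℝ) / m ≤ 4 * J := by
        rw [div_le_iff₀ hmr]
        have : (l:ℝ) ≤ n := by exact_mod_cast hln
        linarith
      have hlogn : Real.log n ≤ (lg n : ℝ) := by
        have h3 : (n:ℝ) ≤ (2:ℝ) ^ lg n := by exact_mod_cast (lt_two_pow_lg n).le
        have h4 := Real.log_le_log hnr h3
        rw [Real.log_pow] at h4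
        have := Real.log_two_lt_d9
        nlinarith
      have hLJ : (lg n : ℝ) ≤ J := by
        have : (lg n : ℝ) ≤ (lg n : ℝ) ^ a := by
          calc (lg n : ℝ) = (lg n : ℝ) ^ 1 := (pow_one _).symm
            _ ≤ _ := pow_le_pow_right₀ hL1 ha
        rw [hJe]
        nlinarith
      have hFl : F l ≤ 8 * J := by linarith
      have hq0 : (0:ℝ) ≤ q := Nat.cast_nonneg _
      have h2 : (q:ℝ) * F l ≤ 16 * J ^ 2 := by
        calc (q:ℝ) * F l ≤ q * (8 * J) := by gcongr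
          _ ≤ (2 * J) * (8 * J) := by gcongr
          _ = _ := by ring
      have h3 : 16 * J ^ 2 ≤ 16 * (K:ℝ) ^ 2 * (lg n : ℝ) ^ (2 * a) := by
        rw [hJe, mul_pow, ← pow_mul, mul_comm a 2]
        linarith
      have hBK : 16 * (K:ℝ) ^ 2 ≤ B := by
        have : 0 ≤ max B0 0 := le_max_right _ _
        have : 0 ≤ (K:ℝ) ^ 2 := by positivity
        linarith
      have hpos : (0:ℝ) ≤ (lg n : ℝ) ^ (2 * a) := by positivity
      rcases Nat.eq_zero_or_pos r with hr0 | hr0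
      · have h4 : F r ≤ 0 := by rw [hr0]; exact h0
        calc F n ≤ q * F l + F r := h1
          _ ≤ B * (lg n : ℝ) ^ (2 * a) := by nlinarith
          _ ≤ B * (lg n : ℝ) ^ (2 * a + 1) :=
              mul_le_mul_of_nonneg_left (pow_le_pow_right₀ hL1 (by omega)) hBB.le
      · have h4 := ih r hrn
        have h5 : (lg r : ℝ) ≤ (lg n : ℝ) - 1 := by
          have := lg_half hr0 hr2
          have h6 : ((lg r + 1 : ℕ) : ℝ) ≤ (lg n : ℝ) := by exact_mod_cast this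
          push_cast at h6
          linarith
        have h6 : (lg r : ℝ) ^ (2 * a + 1) ≤ (lg n : ℝ) ^ (2 * a) * ((lg n : ℝ) - 1) := by
          rw [pow_succ]
          have h7 : (lg r : ℝ) ≤ lg n := by linarith
          have h8 : (0:ℝ) ≤ (lg r : ℝ) := Nat.cast_nonneg _
          exact mul_le_mul (pow_le_pow_left₀ h8 h7 _) h5 h8 hpos
        calc F n ≤ q * F l + F r := h1
          _ ≤ B * (lg n : ℝ) ^ (2 * a) + B * ((lg n : ℝ) ^ (2 * a) * ((lg n : ℝ) - 1)) := by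
              have h9 : B * (lg r : ℝ) ^ (2 * a + 1) ≤
                B * ((lg n : ℝ) ^ (2 * a) * ((lg n : ℝ) - 1)) :=
                mul_le_mul_of_nonneg_left h6 hBB.le
              have h10 : 16 * (K:ℝ) ^ 2 * (lg n : ℝ) ^ (2 * a) ≤ B * (lg n : ℝ) ^ (2 * a) :=
                mul_le_mul_of_nonneg_right hBK hpos
              linarith
          _ = B * (lg n : ℝ) ^ (2 * a + 1) := by rw [pow_succ]; ring

/-- lower bound for the number of bridges -/
theorem bridges_l {a : ℕ} {C μ : ℝ} (ha : 1 ≤ a) (hμ : 1 ≤ μ) (hC : 0 ≤ C) (hh : HalfL a C μ)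
    (hc : ∀ n : ℕ, μ ^ n ≤ (Nat.card (WalkFun n) : ℝ)) :
    ∃ B : ℝ, 0 < B ∧ ∀ n : ℕ, μ ^ n * Real.exp (-(B * (lg n : ℝ) ^ (2 * a + 1))) ≤ (bn n : ℝ) := by
  have hμ0 : 0 < μ := by linarith
  have hb : ∀ n, (0:ℝ) < bn n := fun n => by
    have := bn_pos n
    exact_mod_cast this
  set F : ℕ → ℝ := fun n => n * Real.log μ - Real.log (bn n) with hF
  have hsub : ∀ p q, F (p + q) ≤ F p + F q := by
    intro p q
    have h1 : Real.log (bn p) + Real.log (bn q) ≤ Real.log (bn (p + q)) := by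
      rw [← Real.log_mul (hb p).ne' (hb q).ne']
      refine Real.log_le_log (mul_pos (hb p) (hb q)) ?_
      exact_mod_cast bn_mul p q
    simp only [hF]
    push_cast
    linarith
  have h0 : F 0 ≤ 0 := by
    simp only [hF]
    have : (1:ℝ) ≤ bn 0 := by exact_mod_cast bn_pos 0
    have := Real.log_nonneg this
    simp
    linarith
  obtain ⟨K, N0, hK, hpar⟩ := params_l (a := a) hμ hC
  obtain ⟨B, hB, hB2⟩ := F_bound_l hsub h0 (N0 := max N0 1) ha hK (by
    intro n hn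
    have hn0 : N0 ≤ n := (le_max_left _ _).trans hn
    have hn1 : 1 ≤ n := (le_max_right _ _).trans hn
    obtain ⟨m, k, hm, hmn, hk, hkn, hlog, hlt⟩ := hpar n hn0
    obtain ⟨l, hl1, hl2, hl3⟩ := good_len_l hμ hh hc hm hmn hk hkn hlt
    refine ⟨m, l, hm, hl1, hl2, hlog, ?_⟩
    have hnr : (0:ℝ) < n := by exact_mod_cast hn1
    have hmr : (0:ℝ) < m := by exact_mod_cast hm
    have h1 := Real.log_le_log (by positivity) hl3
    rw [Real.log_mul (by positivity) (by positivity), Real.log_pow, Real.log_inv,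
      Real.log_rpow (by norm_num), Real.log_div (hb l).ne' (by positivity), Real.log_pow] at h1
    have h2 : 2 * (l:ℝ) / m * Real.log 2 ≤ 2 * (l:ℝ) / m := by
      have h3 : Real.log 2 ≤ 1 := by
        have := Real.log_two_lt_d9
        linarith
      have h4 : 0 ≤ 2 * (l:ℝ) / m := by positivity
      nlinarith
    simp only [hF]
    push_cast at h1
    linarith)
  refine ⟨B, hB, fun n => ?_⟩
  have h1 := hB2 n
  simp only [hF] at h1
  have h2 : Real.log (μ ^ n * Real.exp (-(B * (lg n : ℝ) ^ (2 * a + 1)))) ≤ Real.log (bn n) := by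
    rw [Real.log_mul (by positivity) (by positivity), Real.log_pow, Real.log_exp]
    linarith
  exact (Real.log_le_log_iff (by positivity) (hb n)).mp h2

/-- lower bound for the number of polygons -/
theorem lower_l {a : ℕ} {C μ : ℝ} (ha : 1 ≤ a) (hμ : 1 ≤ μ) (hC : 0 ≤ C) (hh : HalfL a C μ)
    (hc : ∀ n : ℕ, μ ^ n ≤ (Nat.card (WalkFun n) : ℝ)) :
    ∃ B : ℝ, 0 < B ∧ ∀ n : ℕ, 2 ≤ n →
      μ ^ (2 * n) * Real.exp (-(B * (Real.log n) ^ (2 * a + 1))) ≤
      (Nat.card (PolyFun n) : ℝ) / (4 * (n:ℝ)) := by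
  have hμ0 : 0 < μ := by linarith
  have hlμ : 0 ≤ Real.log μ := Real.log_nonneg hμ
  obtain ⟨B, hB, h⟩ := bridges_l ha hμ hC hh hc
  refine ⟨(2 * B + 2 * Real.log μ + 10) * 3 ^ (2 * a + 1), by positivity, fun n hn => ?_⟩
  obtain ⟨m, rfl⟩ : ∃ m, n = m + 1 := ⟨n - 1, by omega⟩
  have hm : 1 ≤ m := by omega
  have hmr : (1:ℝ) ≤ m := by exact_mod_cast hm
  have h1 := h m
  have h2 := poly_ge hm
  set P : ℝ := (Nat.card (PolyFun (m + 1)) : ℝ) / (4 * ((m + 1 : ℕ) : ℝ)) with hP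
  set N : ℝ := ((m + 1 : ℕ) : ℝ) with hN
  have hNm : N = m + 1 := by rw [hN]; push_cast; ring
  have hN2 : 2 ≤ N := by rw [hNm]; linarith
  have hN0 : 0 < N := by linarith
  set A : ℝ := (lg (m + 1) : ℝ) ^ (2 * a + 1) with hA
  have hL1 : (1:ℝ) ≤ (lg (m + 1) : ℝ) := by exact_mod_cast lg_pos _
  have hA1 : 1 ≤ A := one_le_pow₀ hL1
  have hAm : (lg m : ℝ) ^ (2 * a + 1) ≤ A := by
    have : (lg m : ℝ) ≤ lg (m + 1) := by exact_mod_cast lg_mono (by omega)
    exact pow_le_pow_left₀ (Nat.cast_nonneg _) this _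
  have hA3 : A ≤ 3 ^ (2 * a + 1) * (Real.log N) ^ (2 * a + 1) := by
    rw [← mul_pow]
    exact pow_le_pow_left₀ (Nat.cast_nonneg _) (lg_le_log hn) _
  set Lg : ℝ := Real.log N with hLg
  have hLgA : Lg ≤ A := by
    have h3 : N ≤ (2:ℝ) ^ lg (m + 1) := by
      rw [hN]
      exact_mod_cast (lt_two_pow_lg (m + 1)).le
    have h4 := Real.log_le_log hN0 h3
    rw [Real.log_pow] at h4
    have h5 := Real.log_two_lt_d9
    have h6 : (lg (m + 1) : ℝ) ≤ A := by
      calc (lg (m + 1) : ℝ) = (lg (m + 1) : ℝ) ^ 1 := (pow_one _).symm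
        _ ≤ _ := pow_le_pow_right₀ hL1 (by omega)
    nlinarith
  -- the polynomial factor
  have hpoly : (m:ℝ) ^ 2 * (2 * m + 1) ^ 4 ≤ Real.exp (10 * Lg) := by
    have h3 : Real.exp (10 * Lg) = N ^ 10 := by
      rw [hLg, mul_comm, Real.exp_mul, Real.exp_log (by linarith)]
      exact_mod_cast Real.rpow_natCast N 10
    rw [h3]
    have h4 : (m:ℝ) ≤ N := by rw [hNm]; linarith
    have h5 : 2 * (m:ℝ) + 1 ≤ N ^ 2 := by rw [hNm]; nlinarith
    calc (m:ℝ) ^ 2 * (2 * m + 1) ^ 4 ≤ N ^ 2 * (N ^ 2) ^ 4 := by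
          gcongr
      _ = N ^ 10 := by ring
  have h1' : μ ^ m * Real.exp (-(B * A)) ≤ (bn m : ℝ) := by
    refine le_trans ?_ h1
    refine mul_le_mul_of_nonneg_left (Real.exp_le_exp.2 ?_) (by positivity)
    have : B * (lg m : ℝ) ^ (2 * a + 1) ≤ B * A := by gcongr
    linarith
  have h3 : (μ ^ m * Real.exp (-(B * A))) ^ 2 ≤ (bn m : ℝ) ^ 2 :=
    pow_le_pow_left₀ (by positivity) h1' 2
  have hP0 : 0 ≤ P := by positivity
  have h4 : (μ ^ m * Real.exp (-(B * A))) ^ 2 ≤ Real.exp (10 * Lg) * P :=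
    h3.trans (h2.trans (mul_le_mul_of_nonneg_right hpoly hP0))
  have h5 : μ ^ (2 * (m + 1)) * Real.exp (-((2 * B + 2 * Real.log μ + 10) * 3 ^ (2 * a + 1) *
      Lg ^ (2 * a + 1))) ≤ Real.exp (-(10 * Lg)) * (μ ^ m * Real.exp (-(B * A))) ^ 2 := by
    have e1 : (μ ^ m * Real.exp (-(B * A))) ^ 2 = μ ^ (2 * m) * Real.exp (-(2 * (B * A))) := by
      rw [mul_pow, ← pow_mul, ← Real.exp_nat_mul]
      congr 1
      · congr 1; ring
      · congr 1; push_cast; ring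
    have e2 : μ ^ (2 * (m + 1)) = μ ^ (2 * m) * Real.exp (2 * Real.log μ) := by
      rw [mul_comm 2 (Real.log μ), Real.exp_mul, Real.exp_log hμ0]
      have : μ ^ (2:ℝ) = μ ^ 2 := by exact_mod_cast Real.rpow_natCast μ 2
      rw [this]
      ring
    rw [e1, e2]
    have e3 : Real.exp (-(10 * Lg)) * (μ ^ (2 * m) * Real.exp (-(2 * (B * A)))) =
        μ ^ (2 * m) * (Real.exp (-(10 * Lg)) * Real.exp (-(2 * (B * A)))) := by
      ring
    rw [e3, mul_assoc, ← Real.exp_add, ← Real.exp_add]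
    refine mul_le_mul_of_nonneg_left (Real.exp_le_exp.mpr ?_) (by positivity)
    have f1 : (2 * B + 2 * Real.log μ + 10) * A ≤
        (2 * B + 2 * Real.log μ + 10) * (3 ^ (2 * a + 1) * Lg ^ (2 * a + 1)) := by gcongr
    have f2 : Real.log μ ≤ Real.log μ * A := by nlinarith
    linarith
  have h6 : Real.exp (-(10 * Lg)) * (μ ^ m * Real.exp (-(B * A))) ^ 2 ≤ P := by
    calc Real.exp (-(10 * Lg)) * (μ ^ m * Real.exp (-(B * A))) ^ 2
        ≤ Real.exp (-(10 * Lg)) * (Real.exp (10 * Lg) * P) :=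
          mul_le_mul_of_nonneg_left h4 (Real.exp_pos _).le
      _ = P := by
          rw [← mul_assoc, ← Real.exp_add, neg_add_cancel, Real.exp_zero, one_mul]
  exact h5.trans h6

end Pool.Agent.Work.MP_376faf_co_log
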