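import Pool.Agent.Work.MP_376faf_co_log.Sums
import Pool.Agent.Work.MP_376faf_co_log.FinalL
import Pool.Agent.Work.MP_376faf_co_poly.HalfL

/-! The polylogarithmic theorem: `c_n ≤ μ^n exp (B log^7 n)` and
`p_{2n} ≥ μ^{2n} exp (-B log^15 n)`. -/

set_option autoImplicit false

namespace Pool.Agent.Work.MP_376faf_co_log

open Pool.Agent.Work.MP_376faf_co_lower Pool.Agent.Work.MP_376faf_co_hw
open Pool.Agent.Work.MP_376faf_co_neps
open Filter Topology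
open scoped ENNReal

theorem halfL_seven : ∃ C : ℝ, 0 ≤ C ∧ ∀ μ : ℝ, 1 ≤ μ →
    (∀ t, uu (ENNReal.ofReal μ)⁻¹ t ≤ 1) → HalfL 7 C μ := by
  obtain ⟨c, hc, hV⟩ := VV_log
  obtain ⟨C, hC, h⟩ := Pool.Agent.Work.MP_376faf_co_poly.half_l 3 (by norm_num)
    (c := c.toReal) ENNReal.toReal_nonneg
  refine ⟨C, by linarith, fun μ hμ hu m n k hm hk y hy hL => ?_⟩
  refine h μ hμ hu (fun i => ?_) m n k hm hk y hy hL
  have h1 := hV _ hu i
  rw [ENNReal.ofReal_toReal hc]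
  refine h1.trans (le_of_eq ?_)
  push_cast
  ring

theorem log_bounds {μ : ℝ} (hμ : 1 ≤ μ)
    (hT : Tendsto (fun n : ℕ => ((Nat.card (WalkFun n) : ℕ) : ℝ) ^ ((1:ℝ) / (n:ℝ))) atTop (𝓝 μ))
    (hc : ∀ n : ℕ, μ ^ n ≤ (Nat.card (WalkFun n) : ℝ)) :
    ∃ B : ℝ, 0 < B ∧ ∀ n : ℕ, 2 ≤ n →
      (Nat.card (WalkFun n) : ℝ) ≤ μ ^ n * Real.exp (B * (Real.log n) ^ 7) ∧
      μ ^ (2 * n) * Real.exp (-(B * (Real.log n) ^ 15)) ≤
      (Nat.card (PolyFun n) : ℝ) / (4 * (n:ℝ)) := by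
  have hu := uu_le_one hμ hT
  obtain ⟨C, hC, h⟩ := halfL_seven
  obtain ⟨B1, hB1, h1⟩ := upper_l hμ hC (h μ hμ hu)
  obtain ⟨B2, hB2, h2⟩ := lower_l (by norm_num) hμ hC (h μ hμ hu) hc
  refine ⟨max B1 B2, lt_max_of_lt_left hB1, fun n hn => ⟨?_, ?_⟩⟩
  · have hl : 0 ≤ Real.log n := Real.log_natCast_nonneg n
    refine (h1 n hn).trans (mul_le_mul_of_nonneg_left (Real.exp_le_exp.mpr ?_) (by positivity))
    exact mul_le_mul_of_nonneg_right (le_max_left _ _) (by positivity)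
  · have hl : 0 ≤ Real.log n := Real.log_natCast_nonneg n
    refine le_trans (mul_le_mul_of_nonneg_left (Real.exp_le_exp.mpr ?_) (by positivity)) (h2 n hn)
    exact neg_le_neg (mul_le_mul_of_nonneg_right (le_max_right _ _) (by positivity))

end Pool.Agent.Work.MP_376faf_co_log
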