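import Pool.Agent.Work.MP_376faf_co_neps.Gen
import Pool.Agent.Work.MP_376faf_co_neps.SLemma
import Pool.Agent.Work.MP_376faf_co_neps.MultiB

/-! Mirror hairpin lemma: if `c' ++ c0` and `e` are a hairpin of sign `+`, `e` not longer than
`c' ++ c0`, then `e` passes the column of the start of `c0` above the start of `c0`. -/

set_option autoImplicit false

namespace Pool.Agent.Work.MP_376faf_co_log

open Finset Pool.Agent.Work.MP_376faf_co_neps.Abs

theorem hpm_abs (n m N : ℕ) (a y u v : ℕ → ℤ) (hs : ∀ i < n, US a y i)
    (hinj : ∀ i ≤ n, ∀ j ≤ n, a i = a j → y i = y j → i = j)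
    (a0 : a 0 = 0) (hn0 : 0 < a n) (hm : m < n)
    (hl : ∀ i ≤ m, a i ≤ a m) (hr : ∀ i ≤ n, m < i → a m < a i) (hmax : ∀ i ≤ n, a i ≤ a n)
    (hup : a (n - 1) = a n ∧ y (n - 1) + 1 = y n)
    (hs' : ∀ i < N, US u v i) (u0 : u 0 = a n) (v0 : v 0 = y n)
    (hu1 : ∀ i ≤ N, 0 < i → u i < a n) (hu0 : ∀ i ≤ N, 0 ≤ u i)
    (hdis : ∀ i ≤ n, ∀ k ≤ N, 0 < k → a i = u k → y i = v k → False) :
    ∀ k ≤ N, 0 < k → u k = a m → y m < v k := by
  have hn1 : 0 < n := by omega
  -- the edges of the second path avoid the first path
  have hedge : ∀ k ≤ N, 0 < k → ∀ i < n, ¬ (y i = v k ∧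
      ((a i = u k + 1 - 1 ∧ a (i + 1) = u k + 1) ∨ (a i = u k + 1 ∧ a (i + 1) = u k + 1 - 1))) := by
    rintro k hk hk0 i hi ⟨h1, h2 | h2⟩
    · exact hdis i (by omega) k hk hk0 (by omega) h1
    · have h3 := (hs i hi).cases
      exact hdis (i + 1) (by omega) k hk hk0 (by omega) (by omega)
  -- the start
  have hbase : NN n a y (a n) (y n) = 1 := by
    have h1 := tele n hs (a n) (y n)
    have h2 : gg a y (a n) (y n) n = 0 := by unfold gg; rw [if_neg]; omega
    have h3 : gg a y (a n) (y n) 0 = 0 := by unfold gg; rw [if_neg]; omega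
    have h4 : ∑ i ∈ range n, ee a y (a n + 1) (y n) i = 0 := by
      refine sum_eq_zero (fun i hi => ?_)
      have hi := mem_range.1 hi
      unfold ee
      rw [if_neg]
      have := hmax i hi.le
      have := hmax (i + 1) hi
      omega
    have h5 : ∑ i ∈ range n, vv a y (a n) (y n) i = 1 := by
      rw [sum_eq_single (n - 1)]
      · unfold vv
        rw [if_pos]
        rw [show n - 1 + 1 = n by omega]
        omega
      · intro i hi hne
        have hi := mem_range.1 hi
        unfold vv
        rw [if_neg]
        rintro ⟨h6, h7, ⟨h8, h9⟩ | ⟨h8, h9⟩⟩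
        · have := hinj i hi.le n le_rfl h6 h8
          omega
        · have := hinj (i + 1) hi n le_rfl h7 h9
          omega
      · intro h
        exact absurd (mem_range.2 (by omega)) h
    rw [h2, h3, h4, h5] at h1
    change (0 : ZMod 2) + 0 = NN n a y (a n) (y n) + 0 + 1 at h1
    have h6 : (1 : ZMod 2) + 1 = 0 := two_zero
    linear_combination (-1 : ZMod 2) * h1 - h6
  -- propagation
  have key : ∀ k ≤ N, 0 < k → NN n a y (u k + 1) (v k) = 1 := by
    intro k
    induction k with
    | zero => intro _ h; omega
    | succ k ih =>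
      intro hk _
      have hst := (hs' k (by omega)).cases
      rcases Nat.eq_zero_or_pos k with h0 | h0
      · subst h0
        have h1 := hu1 1 (by omega) (by omega)
        rw [u0, v0] at hst
        have h2 : u (0 + 1) = a n - 1 ∧ v (0 + 1) = y n := by
          rw [zero_add] at hst ⊢
          omega
        rw [h2.1, h2.2, show a n - 1 + 1 = a n by ring]
        exact hbase
      · have h1 := ih (by omega) h0
        have g1 := hu1 k (by omega) h0
        have g2 := hu1 (k + 1) hk (by omega)
        have g3 := hu0 k (by omega)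
        have g4 := hu0 (k + 1) hk
        rcases hst with ⟨h2, h3⟩ | ⟨h2, h3⟩ | ⟨h2, h3⟩ | ⟨h2, h3⟩
        · rw [h2, h3, ← h1]
          refine NN_hor hs _ _ ?_ (by omega) (by omega)
          rintro i hi ⟨h4, h5⟩
          exact hdis i hi (k + 1) hk (by omega) (by omega) (by omega)
        · rw [h2, h3, show u k - 1 + 1 = u k by ring, ← h1]
          symm
          refine NN_hor hs _ _ ?_ (by omega) (by omega)
          rintro i hi ⟨h4, h5⟩
          exact hdis i hi k (by omega) h0 (by omega) (by omega)
        · rw [h2, h3, ← h1]
          exact NN_vert _ _ (hedge k (by omega) h0)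
        · have h4 : v k = v (k + 1) + 1 := by omega
          rw [h2, ← h1, h4]
          symm
          have := hedge (k + 1) hk (by omega)
          rw [h2] at this
          exact NN_vert _ _ this
  intro k hk hk0 hkm
  have h1 := key k hk hk0
  by_contra hlt
  have h2 : NN n a y (u k + 1) (v k) = 0 := by
    unfold NN
    refine sum_eq_zero (fun i hi => ?_)
    have hi := mem_range.1 hi
    unfold ee
    rw [if_neg]
    rintro ⟨h3, h4⟩
    rcases Nat.lt_trichotomy i m with h5 | h5 | h5
    · have := hl i h5.le
      have := hl (i + 1) h5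
      omega
    · subst h5
      omega
    · have := hr i hi.le h5
      have := hr (i + 1) hi (by omega)
      omega
  rw [h2] at h1
  exact absurd h1 (by decide)

open Pool.Agent.Work.MP_376faf_co_lower Pool.Agent.Work.MP_376faf_co_hw
open Pool.Agent.Work.MP_376faf_co_neps

/-- hairpin `c`, `e` (vertices of `c ++ ng e`) such that the second arm does not meet the vertical
ray going down from the start of `c` -/
def RP (c e : List Pt) : Prop := Walk (c ++ ng e) ∧
  ∀ k ≤ e.length, (c.sum - pos e k).1 = 0 → 0 < (c.sum - pos e k).2

theorem hp_mirror {c' c0 e : List Pt} (hc' : Bridge c') (hc0 : Bridge c0) (he : Bridge e)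
    (h : Cp (c' ++ c0) e) (h0 : c0 ≠ []) (hs : sp e ≤ sp (c' ++ c0)) : RP c0 e := by
  have hw : Bridge (c' ++ c0) := bridge_append hc' hc0
  have hlen : (c' ++ c0).length = c'.length + c0.length := List.length_append
  have hc0l : 0 < c0.length := List.length_pos_iff.2 h0
  have hel : 0 < e.length := List.length_pos_iff.2 h.2.2.1
  have hW := h.1
  refine ⟨?_, ?_⟩
  · have := hW.drop (j := c'.length) (by rw [List.length_append, hlen]; omega)
    rwa [List.append_assoc, List.drop_left'] at this
    rfl
  · intro k hk hk1
    have hsum : (c' ++ c0).sum = c'.sum + c0.sum := List.sum_append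
    have hspw := sp_eq hw
    have hspe := sp_eq he
    have hpos0 : 0 < (c0.sum).1 := by
      have := (hc0.2 c0.length hc0l le_rfl).1
      rwa [pos_len] at this
    rcases Nat.eq_zero_or_pos k with hk0 | hk0
    · subst hk0
      rw [pos_zero, sub_zero] at hk1
      omega
    have hc'0 := hc'.nonneg (le_refl c'.length)
    rw [pos_len] at hc'0
    have hym : ys (c' ++ c0) c'.length = (c'.sum).2 := by
      unfold ys
      rw [pos_append_left _ _ le_rfl, pos_len]
    have hxm : xs (c' ++ c0) c'.length = (c'.sum).1 := by
      unfold xs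
      rw [pos_append_left _ _ le_rfl, pos_len]
    have hxn : xs (c' ++ c0) (c' ++ c0).length = (c' ++ c0).sum.1 := by
      unfold xs
      rw [pos_len]
    have hyn : ys (c' ++ c0) (c' ++ c0).length = (c' ++ c0).sum.2 := by
      unfold ys
      rw [pos_len]
    have key := hpm_abs (c' ++ c0).length c'.length e.length (xs (c' ++ c0)) (ys (c' ++ c0))
      (fun k => ((c' ++ c0).sum - pos e k).1) (fun k => ((c' ++ c0).sum - pos e k).2)
      (fun i hi => us_pos hw.1 hi)
      (fun i hi j hj h1 h2 => hw.1.2 (Set.mem_Iic.2 hi) (Set.mem_Iic.2 hj) (Prod.ext h1 h2))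
      (by simp [xs]) (by rw [hxn, hsum, Prod.fst_add]; omega) (by omega)
      (by
        intro i hi
        rw [hxm]
        unfold xs
        rw [pos_append_left _ _ hi]
        have := hc'.le_end hi
        rwa [pos_len] at this)
      (by
        intro i hi hmi
        rw [hxm]
        obtain ⟨j, rfl⟩ := Nat.exists_eq_add_of_lt hmi
        unfold xs
        rw [show c'.length + j + 1 = c'.length + (j + 1) by ring, pos_append_right, Prod.fst_add]
        have := (hc0.2 (j + 1) (by omega) (by omega)).1
        omega)
      (by
        intro i hi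
        unfold xs
        exact hw.le_end hi)
      (by
        have h1 := h.2.2.2
        have h2 := congrArg Prod.fst h1
        have h3 := congrArg Prod.snd h1
        rw [Prod.fst_add] at h2
        rw [Prod.snd_add] at h3
        unfold xs ys
        simp only at h2 h3
        omega)
      (by
        intro i hi
        have h1 := pos_succ e hi
        have h2 := he.1.1 _ (List.getElem_mem hi)
        unfold US
        unfold Un at h2
        simp only [h1, Prod.fst_sub, Prod.snd_sub, Prod.fst_add, Prod.snd_add]
        rw [← h2]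
        congr 1
        · rw [show (c' ++ c0).sum.1 - ((pos e i).1 + (e[i]).1) - ((c' ++ c0).sum.1 - (pos e i).1) =
            -(e[i]).1 by ring, abs_neg]
        · rw [show (c' ++ c0).sum.2 - ((pos e i).2 + (e[i]).2) - ((c' ++ c0).sum.2 - (pos e i).2) =
            -(e[i]).2 by ring, abs_neg])
      (by rw [hxn]; simp) (by rw [hyn]; simp)
      (by
        intro i hi hi0
        rw [hxn]
        have := (he.2 i hi0 hi).1
        simp only [Prod.fst_sub]
        omega)
      (by
        intro i hi
        have h1 := he.le_end hi
        rw [pos_len] at h1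
        simp only [Prod.fst_sub]
        omega)
      (by
        intro i hi k hk hk0 h1 h2
        have h3 := hW.2 (show i ∈ Set.Iic ((c' ++ c0) ++ ng e).length by
            simp only [Set.mem_Iic, List.length_append] at hi ⊢; omega)
          (show (c' ++ c0).length + k ∈ Set.Iic ((c' ++ c0) ++ ng e).length by
            simp only [Set.mem_Iic, List.length_append, ng_length]; omega) (by
            rw [pos_append_left _ _ hi, pos_append_right, pos_ng, ← sub_eq_add_neg]
            exact Prod.ext h1 h2)
        omega)
      k hk hk0 (by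
        rw [hxm]
        simp only [Prod.fst_sub] at hk1
        simp only [hsum, Prod.fst_sub, Prod.fst_add]
        omega)
    rw [hym] at key
    simp only [hsum, Prod.snd_sub, Prod.snd_add] at key
    simp only [Prod.snd_sub]
    omega

end Pool.Agent.Work.MP_376faf_co_log
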