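import Pool.Agent.Work.MP_376faf_co_log.Tele
import Pool.Agent.Work.MP_376faf_co_log.HPM
import Pool.Agent.Work.MP_376faf_co_poly.FMSum

/-! `V ≤ C (k+1)^3 U` (note 3137, section 4, with Theorem FM). -/

set_option autoImplicit false

namespace Pool.Agent.Work.MP_376faf_co_log

open Pool.Agent.Work.MP_376faf_co_lower Pool.Agent.Work.MP_376faf_co_hw
open Pool.Agent.Work.MP_376faf_co_neps Pool.Agent.Work.MP_376faf_co_neps.IrrAux
open Pool.Agent.Work.MP_376faf_co_poly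
open scoped ENNReal

open Classical in
/-- cut of the bridges with span `≥ D` from the right end -/
theorem cutR (x : ℝ≥0∞) {z : ℝ≥0∞} (hz : z ≤ 1) {D : ℕ} (hD : 1 ≤ D) (G : List Pt → ℝ≥0∞) :
    ∑' b : Br, (if D ≤ sp b.1 then wz x z b.1 * G b.1 else 0) ≤ 8 * ∑' q : Br × Ir × Br,
      (if sp q.2.2.1 < D then
        (wz x z q.1.1 * (x ^ q.2.1.1.length * (1 - zN (4 * D) ^ sp q.2.1.1)) *
          wz x (zN (4 * D)) q.2.2.1) * G (q.1.1 ++ (q.2.1.1 ++ q.2.2.1)) else 0) := by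
  have hzD := zN_le_one (4 * D)
  have h1 : ∑' b : Br, (if D ≤ sp b.1 then wz x z b.1 * G b.1 else 0) ≤
      ∑' b : Br, 8 * ∑' q : Br × Ir × Br, (wz x z b.1 * G b.1) *
        (if q.1.1 ++ (q.2.1.1 ++ q.2.2.1) = b.1 ∧ sp q.2.2.1 < D then
        zN (4 * D) ^ sp q.2.2.1 * (1 - zN (4 * D) ^ sp q.2.1.1) else 0) := by
    refine ENNReal.tsum_le_tsum (fun b => ?_)
    split_ifs with hb
    · rw [ENNReal.tsum_mul_left]
      have h2 := teleR hzD b.1.length b.1 D le_rfl b.2 hb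
      calc wz x z b.1 * G b.1 = wz x z b.1 * G b.1 * 1 := (mul_one _).symm
        _ ≤ wz x z b.1 * G b.1 * (8 * (1 - zN (4 * D) ^ D)) := mul_le_mul_right (num_cut hD) _
        _ = 8 * (wz x z b.1 * G b.1 * (1 - zN (4 * D) ^ D)) := by ring
        _ ≤ _ := mul_le_mul_right (mul_le_mul_right h2 _) _
    · exact zero_le
  refine h1.trans ?_
  rw [ENNReal.tsum_mul_left, ENNReal.tsum_comm]
  refine mul_le_mul_right (ENNReal.tsum_le_tsum (fun q => ?_)) _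
  have hbr : Bridge (q.1.1 ++ (q.2.1.1 ++ q.2.2.1)) :=
    bridge_append q.1.2 (bridge_append q.2.1.2.1 q.2.2.2)
  rw [tsum_eq_single (⟨_, hbr⟩ : Br) (fun b hb => by
    rw [if_neg (fun h => hb (Subtype.ext h.1.symm)), mul_zero])]
  by_cases hq : sp q.2.2.1 < D
  · rw [if_pos ⟨rfl, hq⟩, if_pos hq]
    simp only
    rw [wz_app x z q.1.2 (bridge_append q.2.1.2.1 q.2.2.2), wz_app x z q.2.1.2.1 q.2.2.2]
    have e1 : wz x z q.2.1.1 ≤ x ^ q.2.1.1.length := by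
      unfold wz
      exact mul_le_of_le_one_right' (pow_le_one' hz _)
    have e2 : wz x z q.2.2.1 ≤ x ^ q.2.2.1.length := by
      unfold wz
      exact mul_le_of_le_one_right' (pow_le_one' hz _)
    calc wz x z q.1.1 * (wz x z q.2.1.1 * wz x z q.2.2.1) *
          G (q.1.1 ++ (q.2.1.1 ++ q.2.2.1)) *
          (zN (4 * D) ^ sp q.2.2.1 * (1 - zN (4 * D) ^ sp q.2.1.1))
        ≤ wz x z q.1.1 * (x ^ q.2.1.1.length * x ^ q.2.2.1.length) *
          G (q.1.1 ++ (q.2.1.1 ++ q.2.2.1)) *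
          (zN (4 * D) ^ sp q.2.2.1 * (1 - zN (4 * D) ^ sp q.2.1.1)) := by gcongr
      _ = _ := by unfold wz; ring
  · rw [if_neg (fun h => hq h.2), if_neg hq, mul_zero]

open Classical in
/-- cut of the bridges with span `≥ D` from the left end -/
theorem cutL (x : ℝ≥0∞) {z : ℝ≥0∞} (hz : z ≤ 1) {D : ℕ} (hD : 1 ≤ D) (G : List Pt → ℝ≥0∞) :
    ∑' b : Br, (if D ≤ sp b.1 then wz x z b.1 * G b.1 else 0) ≤ 8 * ∑' q : Br × Ir × Br,
      (if sp q.1.1 < D then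
        (wz x (zN (4 * D)) q.1.1 * (x ^ q.2.1.1.length * (1 - zN (4 * D) ^ sp q.2.1.1)) *
          wz x z q.2.2.1) * G (q.1.1 ++ (q.2.1.1 ++ q.2.2.1)) else 0) := by
  have hzD := zN_le_one (4 * D)
  have h1 : ∑' b : Br, (if D ≤ sp b.1 then wz x z b.1 * G b.1 else 0) ≤
      ∑' b : Br, 8 * ∑' q : Br × Ir × Br, (wz x z b.1 * G b.1) *
        (if q.1.1 ++ (q.2.1.1 ++ q.2.2.1) = b.1 ∧ sp q.1.1 < D then
        zN (4 * D) ^ sp q.1.1 * (1 - zN (4 * D) ^ sp q.2.1.1) else 0) := by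
    refine ENNReal.tsum_le_tsum (fun b => ?_)
    split_ifs with hb
    · rw [ENNReal.tsum_mul_left]
      have h2 := teleL hzD b.1.length b.1 D le_rfl b.2 hb
      calc wz x z b.1 * G b.1 = wz x z b.1 * G b.1 * 1 := (mul_one _).symm
        _ ≤ wz x z b.1 * G b.1 * (8 * (1 - zN (4 * D) ^ D)) := mul_le_mul_right (num_cut hD) _
        _ = 8 * (wz x z b.1 * G b.1 * (1 - zN (4 * D) ^ D)) := by ring
        _ ≤ _ := mul_le_mul_right (mul_le_mul_right h2 _) _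
    · exact zero_le
  refine h1.trans ?_
  rw [ENNReal.tsum_mul_left, ENNReal.tsum_comm]
  refine mul_le_mul_right (ENNReal.tsum_le_tsum (fun q => ?_)) _
  have hbr : Bridge (q.1.1 ++ (q.2.1.1 ++ q.2.2.1)) :=
    bridge_append q.1.2 (bridge_append q.2.1.2.1 q.2.2.2)
  rw [tsum_eq_single (⟨_, hbr⟩ : Br) (fun b hb => by
    rw [if_neg (fun h => hb (Subtype.ext h.1.symm)), mul_zero])]
  by_cases hq : sp q.1.1 < D
  · rw [if_pos ⟨rfl, hq⟩, if_pos hq]
    simp only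
    rw [wz_app x z q.1.2 (bridge_append q.2.1.2.1 q.2.2.2), wz_app x z q.2.1.2.1 q.2.2.2]
    have e1 : wz x z q.2.1.1 ≤ x ^ q.2.1.1.length := by
      unfold wz
      exact mul_le_of_le_one_right' (pow_le_one' hz _)
    have e2 : wz x z q.1.1 ≤ x ^ q.1.1.length := by
      unfold wz
      exact mul_le_of_le_one_right' (pow_le_one' hz _)
    calc wz x z q.1.1 * (wz x z q.2.1.1 * wz x z q.2.2.1) *
          G (q.1.1 ++ (q.2.1.1 ++ q.2.2.1)) *
          (zN (4 * D) ^ sp q.1.1 * (1 - zN (4 * D) ^ sp q.2.1.1))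
        ≤ x ^ q.1.1.length * (x ^ q.2.1.1.length * wz x z q.2.2.1) *
          G (q.1.1 ++ (q.2.1.1 ++ q.2.2.1)) *
          (zN (4 * D) ^ sp q.1.1 * (1 - zN (4 * D) ^ sp q.2.1.1)) := by gcongr
      _ = _ := by unfold wz; ring
  · rw [if_neg (fun h => hq h.2), if_neg hq, mul_zero]

open Classical in
/-- mass of the pairs of bridges with a property -/
noncomputable def PS (x z : ℝ≥0∞) (P : List Pt → List Pt → Prop) : ℝ≥0∞ :=
  ∑' c : Br, ∑' e : Br, if P c.1 e.1 then wz x z c.1 * wz x z e.1 else 0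

theorem PS_mono {x z : ℝ≥0∞} {P Q : List Pt → List Pt → Prop}
    (h : ∀ c e, Bridge c → Bridge e → P c e → Q c e) : PS x z P ≤ PS x z Q := by
  classical
  unfold PS
  refine ENNReal.tsum_le_tsum (fun c => ENNReal.tsum_le_tsum (fun e => ?_))
  by_cases hP : P c.1 e.1
  · rw [if_pos hP, if_pos (h _ _ c.2 e.2 hP)]
  · rw [if_neg hP]
    exact zero_le

theorem PS_or {x z : ℝ≥0∞} {P Q R : List Pt → List Pt → Prop}
    (h : ∀ c e, Bridge c → Bridge e → P c e → Q c e ∨ R c e) :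
    PS x z P ≤ PS x z Q + PS x z R := by
  classical
  unfold PS
  rw [← ENNReal.tsum_add]
  refine ENNReal.tsum_le_tsum (fun c => ?_)
  rw [← ENNReal.tsum_add]
  refine ENNReal.tsum_le_tsum (fun e => ?_)
  by_cases hP : P c.1 e.1
  · rw [if_pos hP]
    rcases h _ _ c.2 e.2 hP with h1 | h1
    · rw [if_pos h1]
      exact le_self_add
    · rw [if_pos h1]
      exact le_add_self
  · rw [if_neg hP]
    exact zero_le

theorem PS_sum {x z : ℝ≥0∞} {P : List Pt → List Pt → Prop} {Q : ℕ → List Pt → List Pt → Prop}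
    (n : ℕ) (h : ∀ c e, Bridge c → Bridge e → P c e → ∃ i < n, Q i c e) :
    PS x z P ≤ ∑ i ∈ Finset.range n, PS x z (Q i) := by
  classical
  unfold PS
  rw [← Summable.tsum_finsetSum (fun _ _ => ENNReal.summable)]
  refine ENNReal.tsum_le_tsum (fun c => ?_)
  rw [← Summable.tsum_finsetSum (fun _ _ => ENNReal.summable)]
  refine ENNReal.tsum_le_tsum (fun e => ?_)
  by_cases hP : P c.1 e.1
  · rw [if_pos hP]
    obtain ⟨i, hi, hq⟩ := h _ _ c.2 e.2 hP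
    refine le_trans ?_ (Finset.single_le_sum (f := fun i => if Q i c.1 e.1 then
      wz x z c.1 * wz x z e.1 else 0) (fun _ _ => zero_le) (Finset.mem_range.2 hi))
    rw [if_pos hq]
  · rw [if_neg hP]
    exact zero_le

/-- pairs whose first (second) arm has a given property: product -/
theorem PS_prod {x z : ℝ≥0∞} (A B : List Pt → Prop) [DecidablePred A] [DecidablePred B] :
    PS x z (fun c e => A c ∧ B e) = (∑' c : Br, if A c.1 then wz x z c.1 else 0) *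
      ∑' e : Br, if B e.1 then wz x z e.1 else 0 := by
  classical
  unfold PS
  rw [← ENNReal.tsum_mul_right]
  refine tsum_congr (fun c => ?_)
  rw [← ENNReal.tsum_mul_left]
  refine tsum_congr (fun e => ?_)
  by_cases h1 : A c.1 <;> by_cases h2 : B e.1 <;> simp [h1, h2]

/-- Theorem FM for `PS` -/
theorem PS_RH (x : ℝ≥0∞) {z : ℝ≥0∞} (hz : z ≤ 1) {X T : ℕ} (hX : 1 ≤ X) (hT : T ≤ 2 * X) :
    PS x z (RH X T) ≤ UU x z := by
  classical
  refine le_trans (le_of_eq ?_) (fm_sum x hz hX hT)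
  unfold PS
  rw [← ENNReal.tsum_prod (f := fun c e : Br => if RH X T c.1 e.1 then
    wz x z c.1 * wz x z e.1 else 0)]
  have := tsum_subtype {p : Br × Br | RH X T p.1.1 p.2.1} (fun p => wz x z p.1.1 * wz x z p.2.1)
  refine Eq.trans ?_ this.symm
  refine tsum_congr (fun p => ?_)
  simp only [Set.indicator, Set.mem_ofPred_eq]

theorem sp_eq_zero {b : List Pt} (hb : Bridge b) (h : sp b = 0) : b = [] := by
  by_contra h0
  have h1 : 0 < b.length := List.length_pos_iff.2 h0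
  have h2 := (hb.2 b.length h1 le_rfl).1
  rw [pos_len] at h2
  unfold sp at h
  omega

theorem RH_of_RP {c e : List Pt} {X T : ℕ} (hc : Bridge c) (he : Bridge e) (h : RP c e)
    (h1 : X ≤ sp c) (h2 : sp c < T) (h3 : T ≤ sp e) : RH X T c e := by
  refine ⟨hc, he, h1, h2, h3, h.1, ?_⟩
  intro k hk hk0 hk1
  rcases Nat.lt_or_ge c.length k with h4 | h4
  · obtain ⟨i, rfl⟩ : ∃ i, k = c.length + i := ⟨k - c.length, by omega⟩
    rw [pos_append_right, pos_ng, ← sub_eq_add_neg] at hk1 ⊢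
    exact h.2 i (by omega) hk1
  · rw [pos_append_left _ _ h4] at hk1
    have := (hc.2 k hk0 h4).1
    omega

/-- small spans -/
theorem small_mass {x z : ℝ≥0∞} (hu : ∀ t, uu x t ≤ 1) (hz : z ≤ 1) (n : ℕ) :
    ∑' e : Br, (if sp e.1 < n then wz x z e.1 else 0) ≤ n := by
  classical
  have h := tsum_sp (fun l => if sp l < n then wz x z l else 0)
  rw [h]
  have h1 : ∀ t : ℕ, (∑' b : BW t, (if sp b.1 < n then wz x z b.1 else 0)) ≤
      if t < n then 1 else 0 := by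
    intro t
    split_ifs with ht
    · refine le_trans ?_ (hu t)
      unfold uu mass
      refine ENNReal.tsum_le_tsum (fun b => ?_)
      split_ifs
      · unfold wz
        exact mul_le_of_le_one_right' (pow_le_one' hz _)
      · exact zero_le
    · refine le_of_eq ?_
      rw [ENNReal.tsum_eq_zero]
      intro b
      rw [if_neg]
      rw [sp_of_W b.2]
      exact ht
  refine (ENNReal.tsum_le_tsum h1).trans ?_
  rw [tsum_eq_sum (s := Finset.range n) (fun t ht => by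
    rw [if_neg]; rwa [Finset.mem_range] at ht)]
  rw [Finset.sum_congr rfl (fun t ht => if_pos (Finset.mem_range.1 ht))]
  simp

theorem wz_le_pow (x : ℝ≥0∞) {z : ℝ≥0∞} (hz : z ≤ 1) (l : List Pt) : wz x z l ≤ x ^ l.length := by
  unfold wz
  exact mul_le_of_le_one_right' (pow_le_one' hz _)

theorem pow_le_wz (x : ℝ≥0∞) {N : ℕ} (hN : 1 ≤ N) {l : List Pt} (hl : sp l ≤ 2 * N) :
    x ^ l.length ≤ 8 * wz x (zN N) l := by
  unfold wz
  calc x ^ l.length = x ^ l.length * 1 := (mul_one _).symm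
    _ ≤ x ^ l.length * (8 * zN N ^ sp l) := mul_le_mul_right (num_big hN hl) _
    _ = _ := by ring

theorem sum3 (x z z' : ℝ≥0∞) (f : List Pt → ℝ≥0∞) :
    ∑' q : Br × Ir × Br, wz x z q.1.1 * (x ^ q.2.1.1.length * (1 - z' ^ sp q.2.1.1)) * f q.2.2.1 =
      UU x z * kap x z' * ∑' c : Br, f c.1 := by
  have h : ∀ q : Br × Ir × Br,
      wz x z q.1.1 * (x ^ q.2.1.1.length * (1 - z' ^ sp q.2.1.1)) * f q.2.2.1 =
      wz x z q.1.1 * ((fun p : Ir × Br => (x ^ p.1.1.length * (1 - z' ^ sp p.1.1)) *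
        f p.2.1) q.2) := by
    intro q
    ring
  rw [tsum_congr h]
  rw [tsum_mul (fun e : Br => wz x z e.1)
    (fun p : Ir × Br => (x ^ p.1.1.length * (1 - z' ^ sp p.1.1)) * f p.2.1)]
  rw [tsum_mul (fun j : Ir => x ^ j.1.length * (1 - z' ^ sp j.1))
    (fun c : Br => f c.1), ← mul_assoc]
  rfl

theorem sum3' (x z z' : ℝ≥0∞) (f : List Pt → ℝ≥0∞) :
    ∑' q : Br × Ir × Br, f q.1.1 * (x ^ q.2.1.1.length * (1 - z' ^ sp q.2.1.1)) * wz x z q.2.2.1 =
      UU x z * kap x z' * ∑' c : Br, f c.1 := by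
  have h : ∀ q : Br × Ir × Br,
      f q.1.1 * (x ^ q.2.1.1.length * (1 - z' ^ sp q.2.1.1)) * wz x z q.2.2.1 =
      f q.1.1 * ((fun p : Ir × Br => (x ^ p.1.1.length * (1 - z' ^ sp p.1.1)) *
        wz x z p.2.1) q.2) := by
    intro q
    ring
  rw [tsum_congr h]
  rw [tsum_mul (fun e : Br => f e.1)
    (fun p : Ir × Br => (x ^ p.1.1.length * (1 - z' ^ sp p.1.1)) * wz x z p.2.1)]
  rw [tsum_mul (fun j : Ir => x ^ j.1.length * (1 - z' ^ sp j.1))
    (fun c : Br => wz x z c.1)]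
  unfold UU kap
  ring

theorem PS_nil_left (x z : ℝ≥0∞) : PS x z (fun c _ => c = []) ≤ UU x z := by
  classical
  unfold PS
  rw [tsum_eq_single (⟨[], bridge_nil⟩ : Br) (fun c hc => by
    rw [ENNReal.tsum_eq_zero]
    intro e
    rw [if_neg (fun h => hc (Subtype.ext h))])]
  unfold UU
  refine ENNReal.tsum_le_tsum (fun e => ?_)
  simp [wz_nil]

theorem PS_nil_right (x z : ℝ≥0∞) : PS x z (fun _ e => e = []) ≤ UU x z := by
  classical
  unfold PS UU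
  refine ENNReal.tsum_le_tsum (fun c => ?_)
  rw [tsum_eq_single (⟨[], bridge_nil⟩ : Br) (fun e he => by
    rw [if_neg (fun h => he (Subtype.ext h))])]
  simp [wz_nil]

theorem PS_swap (x z : ℝ≥0∞) (P : List Pt → List Pt → Prop) :
    PS x z P = PS x z (fun c e => P e c) := by
  classical
  unfold PS
  rw [ENNReal.tsum_comm]
  refine tsum_congr (fun c => tsum_congr (fun e => ?_))
  by_cases h : P e.1 c.1
  · rw [if_pos h, if_pos h, mul_comm]
  · rw [if_neg h, if_neg h]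

open Classical in
theorem caseB {x : ℝ≥0∞} (hu : ∀ t, uu x t ≤ 1) {z : ℝ≥0∞} (hz : z ≤ 1) (p : ℕ) :
    PS x z (fun c e => Cp c e ∧ sp e ≤ sp c ∧ 2 ^ (p + 2) ≤ sp e ∧ sp e < 2 ^ (p + 3)) ≤
      64 * ((p : ℝ≥0∞) + 1) * UU x z := by
  set D : ℕ := 2 ^ p with hD
  have hD1 : 1 ≤ D := Nat.one_le_two_pow
  have e4 : 2 ^ (p + 2) = 4 * D := by rw [pow_add]; ring
  have e8 : 2 ^ (p + 3) = 8 * D := by rw [pow_add]; ring
  rw [e4, e8]
  set G : List Pt → ℝ≥0∞ := fun c => ∑' e : Br, if Cp c e.1 ∧ sp e.1 ≤ sp c ∧ 4 * D ≤ sp e.1 ∧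
    sp e.1 < 8 * D then x ^ e.1.length else 0 with hG
  set H : List Pt → ℝ≥0∞ := fun c => ∑' e : Br, if (c = [] ∨ RP c e.1) ∧ 4 * D ≤ sp e.1 ∧
    sp e.1 < 8 * D then x ^ e.1.length else 0 with hH
  have s1 : PS x z (fun c e => Cp c e ∧ sp e ≤ sp c ∧ 4 * D ≤ sp e ∧ sp e < 8 * D) ≤
      ∑' c : Br, (if D ≤ sp c.1 then wz x z c.1 * G c.1 else 0) := by
    unfold PS
    refine ENNReal.tsum_le_tsum (fun c => ?_)
    split_ifs with h
    · rw [hG]
      simp only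
      rw [← ENNReal.tsum_mul_left]
      refine ENNReal.tsum_le_tsum (fun e => ?_)
      split_ifs
      · exact mul_le_mul_right (wz_le_pow x hz _) _
      · exact zero_le
    · refine le_of_eq ?_
      rw [ENNReal.tsum_eq_zero]
      intro e
      rw [if_neg]
      rintro ⟨_, h1, h2, _⟩
      omega
  have s2 := cutR x hz hD1 G
  have s3 : ∀ q : Br × Ir × Br, (if sp q.2.2.1 < D then
        (wz x z q.1.1 * (x ^ q.2.1.1.length * (1 - zN (4 * D) ^ sp q.2.1.1)) *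
          wz x (zN (4 * D)) q.2.2.1) * G (q.1.1 ++ (q.2.1.1 ++ q.2.2.1)) else 0) ≤
      wz x z q.1.1 * (x ^ q.2.1.1.length * (1 - zN (4 * D) ^ sp q.2.1.1)) *
        (if sp q.2.2.1 < D then wz x (zN (4 * D)) q.2.2.1 * H q.2.2.1 else 0) := by
    intro q
    split_ifs with h
    · have h1 : G (q.1.1 ++ (q.2.1.1 ++ q.2.2.1)) ≤ H q.2.2.1 := by
        rw [hG, hH]
        simp only
        refine ENNReal.tsum_le_tsum (fun e => ?_)
        by_cases h2 : Cp (q.1.1 ++ (q.2.1.1 ++ q.2.2.1)) e.1 ∧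
            sp e.1 ≤ sp (q.1.1 ++ (q.2.1.1 ++ q.2.2.1)) ∧ 4 * D ≤ sp e.1 ∧ sp e.1 < 8 * D
        · rw [if_pos h2, if_pos]
          refine ⟨?_, h2.2.2⟩
          by_cases h3 : q.2.2.1 = []
          · exact Or.inl h3
          · right
            have h4 := h2.1
            have h5 := h2.2.1
            rw [← List.append_assoc] at h4 h5
            exact hp_mirror (bridge_append q.1.2 q.2.1.2.1) q.2.2.2 e.2 h4 h3 h5
        · rw [if_neg h2]
          exact zero_le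
      calc _ ≤ wz x z q.1.1 * (x ^ q.2.1.1.length * (1 - zN (4 * D) ^ sp q.2.1.1)) *
          wz x (zN (4 * D)) q.2.2.1 * H q.2.2.1 := mul_le_mul_right h1 _
        _ = _ := by ring
    · rw [mul_zero]
  have s4 : ∑' c : Br, (if sp c.1 < D then wz x (zN (4 * D)) c.1 * H c.1 else 0) ≤
      8 * PS x (zN (4 * D)) (fun c e => (c = [] ∨ RP c e) ∧ sp c < D ∧ 4 * D ≤ sp e) := by
    unfold PS
    rw [← ENNReal.tsum_mul_left]
    refine ENNReal.tsum_le_tsum (fun c => ?_)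
    split_ifs with h
    · rw [hH]
      simp only
      rw [← ENNReal.tsum_mul_left, ← ENNReal.tsum_mul_left]
      refine ENNReal.tsum_le_tsum (fun e => ?_)
      by_cases h1 : (c.1 = [] ∨ RP c.1 e.1) ∧ 4 * D ≤ sp e.1 ∧ sp e.1 < 8 * D
      · rw [if_pos h1, if_pos ⟨h1.1, h, h1.2.1⟩]
        calc wz x (zN (4 * D)) c.1 * x ^ e.1.length
            ≤ wz x (zN (4 * D)) c.1 * (8 * wz x (zN (4 * D)) e.1) :=
              mul_le_mul_right (pow_le_wz x (by omega) (by have := h1.2.2; omega)) _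
          _ = _ := by ring
      · rw [if_neg h1, mul_zero]
        exact zero_le
    · exact zero_le
  have hzD := zN_le_one (4 * D)
  have s5 : PS x (zN (4 * D)) (fun c e => (c = [] ∨ RP c e) ∧ sp c < D ∧ 4 * D ≤ sp e) ≤
      ((p : ℝ≥0∞) + 1) * UU x (zN (4 * D)) := by
    have t1 := PS_or (x := x) (z := zN (4 * D))
      (P := fun c e => (c = [] ∨ RP c e) ∧ sp c < D ∧ 4 * D ≤ sp e)
      (Q := fun c _ => c = []) (R := fun c e => c ≠ [] ∧ RP c e ∧ sp c < D ∧ 4 * D ≤ sp e)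
      (fun c e _ _ h => by
        by_cases h0 : c = []
        · exact Or.inl h0
        · exact Or.inr ⟨h0, h.1.resolve_left h0, h.2⟩)
    have t2 := PS_sum (x := x) (z := zN (4 * D))
      (P := fun c e => c ≠ [] ∧ RP c e ∧ sp c < D ∧ 4 * D ≤ sp e)
      (Q := fun i => RH (2 ^ i) (2 ^ (i + 1))) p (fun c e hc he h => by
        have h1 : sp c ≠ 0 := fun h0 => h.1 (sp_eq_zero hc h0)
        have h2 : 2 ^ Nat.log 2 (sp c) ≤ sp c := Nat.pow_log_le_self 2 h1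
        have h3 : sp c < 2 ^ (Nat.log 2 (sp c) + 1) := Nat.lt_pow_succ_log_self (by norm_num) _
        have h4 : Nat.log 2 (sp c) < p := by
          apply Nat.log_lt_of_lt_pow h1
          exact h.2.2.1
        have h5 : 2 ^ (Nat.log 2 (sp c) + 1) ≤ 2 ^ p := Nat.pow_le_pow_right (by norm_num) h4
        refine ⟨Nat.log 2 (sp c), h4, RH_of_RP hc he h.2.1 h2 h3 ?_⟩
        have := h.2.2.2
        omega)
    have t3 : ∑ i ∈ Finset.range p, PS x (zN (4 * D)) (RH (2 ^ i) (2 ^ (i + 1))) ≤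
        ∑ i ∈ Finset.range p, UU x (zN (4 * D)) := by
      refine Finset.sum_le_sum (fun i _ => PS_RH x hzD Nat.one_le_two_pow ?_)
      rw [pow_succ]
      omega
    rw [Finset.sum_const, Finset.card_range, nsmul_eq_mul] at t3
    calc _ ≤ PS x (zN (4 * D)) (fun c _ => c = []) + p * UU x (zN (4 * D)) :=
          t1.trans (add_le_add le_rfl (t2.trans t3))
      _ ≤ UU x (zN (4 * D)) + p * UU x (zN (4 * D)) := add_le_add (PS_nil_left _ _) le_rfl
      _ = _ := by ring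
  have hk := UU_kap hu (zN_lt_one (4 * D))
  calc PS x z (fun c e => Cp c e ∧ sp e ≤ sp c ∧ 4 * D ≤ sp e ∧ sp e < 8 * D)
      ≤ 8 * ∑' q : Br × Ir × Br,
        wz x z q.1.1 * (x ^ q.2.1.1.length * (1 - zN (4 * D) ^ sp q.2.1.1)) *
        (if sp q.2.2.1 < D then wz x (zN (4 * D)) q.2.2.1 * H q.2.2.1 else 0) :=
        (s1.trans s2).trans (mul_le_mul_right (ENNReal.tsum_le_tsum s3) _)
    _ = 8 * (UU x z * kap x (zN (4 * D)) *
        ∑' c : Br, (if sp c.1 < D then wz x (zN (4 * D)) c.1 * H c.1 else 0)) := by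
        rw [← sum3 x z (zN (4 * D)) (fun c => if sp c < D then wz x (zN (4 * D)) c * H c else 0)]
    _ ≤ 8 * (UU x z * kap x (zN (4 * D)) * (8 * (((p : ℝ≥0∞) + 1) * UU x (zN (4 * D))))) :=
        mul_le_mul_right (mul_le_mul_right (s4.trans (mul_le_mul_right s5 _)) _) _
    _ = 64 * ((p : ℝ≥0∞) + 1) * UU x z * (UU x (zN (4 * D)) * kap x (zN (4 * D))) := by ring
    _ ≤ 64 * ((p : ℝ≥0∞) + 1) * UU x z * 1 := mul_le_mul_right hk _
    _ = _ := by ring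

open Classical in
theorem PS_small_right {x : ℝ≥0∞} (hu : ∀ t, uu x t ≤ 1) {z : ℝ≥0∞} (hz : z ≤ 1) :
    PS x z (fun _ e => sp e < 4) ≤ 4 * UU x z := by
  have h1 : PS x z (fun _ e => sp e < 4) = PS x z (fun c e => True ∧ sp e < 4) := by
    congr 1
    funext c e
    simp
  rw [h1, PS_prod (fun _ => True) (fun e => sp e < 4), mul_comm]
  refine mul_le_mul' (small_mass hu hz 4) ?_
  unfold UU
  refine ENNReal.tsum_le_tsum (fun c => ?_)
  simp

theorem PS_small_left {x : ℝ≥0∞} (hu : ∀ t, uu x t ≤ 1) {z : ℝ≥0∞} (hz : z ≤ 1) :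
    PS x z (fun c _ => sp c < 4) ≤ 4 * UU x z := by
  rw [PS_swap]
  exact PS_small_right hu hz

theorem dy {s K : ℕ} (h1 : 4 ≤ s) (h2 : s < 2 ^ (K + 2)) :
    ∃ p < K, 2 ^ (p + 2) ≤ s ∧ s < 2 ^ (p + 3) := by
  have h3 : 2 ^ Nat.log 2 s ≤ s := Nat.pow_log_le_self 2 (by omega)
  have h4 : s < 2 ^ (Nat.log 2 s + 1) := Nat.lt_pow_succ_log_self (by norm_num) _
  have h5 : Nat.log 2 s < K + 2 := Nat.log_lt_of_lt_pow (by omega) h2
  have h6 : 2 ≤ Nat.log 2 s := by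
    have : Nat.log 2 4 ≤ Nat.log 2 s := Nat.log_mono_right h1
    have h7 : Nat.log 2 4 = 2 := by
      rw [show (4:ℕ) = 2 ^ 2 by norm_num, Nat.log_pow (by norm_num)]
    omega
  refine ⟨Nat.log 2 s - 2, by omega, ?_, ?_⟩
  · rw [show Nat.log 2 s - 2 + 2 = Nat.log 2 s by omega]
    exact h3
  · rw [show Nat.log 2 s - 2 + 3 = Nat.log 2 s + 1 by omega]
    exact h4

theorem totB {x : ℝ≥0∞} (hu : ∀ t, uu x t ≤ 1) {z : ℝ≥0∞} (hz : z ≤ 1) (K : ℕ) :
    PS x z (fun c e => Cp c e ∧ sp e ≤ sp c ∧ sp e < 2 ^ (K + 2)) ≤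
      68 * ((K : ℝ≥0∞) + 1) ^ 2 * UU x z := by
  have t1 := PS_or (x := x) (z := z) (P := fun c e => Cp c e ∧ sp e ≤ sp c ∧ sp e < 2 ^ (K + 2))
    (Q := fun _ e => sp e < 4)
    (R := fun c e => Cp c e ∧ sp e ≤ sp c ∧ 4 ≤ sp e ∧ sp e < 2 ^ (K + 2))
    (fun c e _ _ h => by
      rcases Nat.lt_or_ge (sp e) 4 with h1 | h1
      · exact Or.inl h1
      · exact Or.inr ⟨h.1, h.2.1, h1, h.2.2⟩)
  have t2 := PS_sum (x := x) (z := z)
    (P := fun c e => Cp c e ∧ sp e ≤ sp c ∧ 4 ≤ sp e ∧ sp e < 2 ^ (K + 2))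
    (Q := fun p c e => Cp c e ∧ sp e ≤ sp c ∧ 2 ^ (p + 2) ≤ sp e ∧ sp e < 2 ^ (p + 3)) K
    (fun c e _ _ h => by
      obtain ⟨p, hp, h1, h2⟩ := dy h.2.2.1 h.2.2.2
      exact ⟨p, hp, h.1, h.2.1, h1, h2⟩)
  have t3 : ∑ p ∈ Finset.range K, PS x z (fun c e => Cp c e ∧ sp e ≤ sp c ∧
      2 ^ (p + 2) ≤ sp e ∧ sp e < 2 ^ (p + 3)) ≤
      ∑ p ∈ Finset.range K, 64 * ((K : ℝ≥0∞) + 1) * UU x z := by
    refine Finset.sum_le_sum (fun p hp => (caseB hu hz p).trans ?_)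
    have : (p : ℝ≥0∞) ≤ K := by exact_mod_cast (Finset.mem_range.1 hp).le
    gcongr
  rw [Finset.sum_const, Finset.card_range, nsmul_eq_mul] at t3
  have hK : (K : ℝ≥0∞) ≤ (K : ℝ≥0∞) + 1 := le_self_add
  have h1K : (1 : ℝ≥0∞) ≤ (K : ℝ≥0∞) + 1 := le_add_self
  calc _ ≤ 4 * UU x z + K * (64 * ((K : ℝ≥0∞) + 1) * UU x z) :=
        t1.trans (add_le_add (PS_small_right hu hz) (t2.trans t3))
    _ ≤ 4 * ((K : ℝ≥0∞) + 1) ^ 2 * UU x z +
        ((K : ℝ≥0∞) + 1) * (64 * ((K : ℝ≥0∞) + 1) * UU x z) := by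
        gcongr
        calc (4 : ℝ≥0∞) = 4 * 1 := (mul_one _).symm
          _ ≤ 4 * ((K : ℝ≥0∞) + 1) ^ 2 := mul_le_mul_right (one_le_pow₀ h1K) _
    _ = _ := by ring

open Classical in
theorem caseA {x : ℝ≥0∞} (hu : ∀ t, uu x t ≤ 1) {z : ℝ≥0∞} (hz : z ≤ 1) (p : ℕ) :
    PS x z (fun c e => Cp c e ∧ sp c ≤ sp e ∧ 2 ^ (p + 2) ≤ sp c ∧ sp c < 2 ^ (p + 3)) ≤
      4416 * ((p : ℝ≥0∞) + 1) ^ 2 * UU x z := by
  set D : ℕ := 2 ^ p with hD
  have hD1 : 1 ≤ D := Nat.one_le_two_pow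
  have e4 : 2 ^ (p + 2) = 4 * D := by rw [pow_add]; ring
  have e8 : 2 ^ (p + 3) = 8 * D := by rw [pow_add]; ring
  rw [e4, e8, PS_swap]
  set G : List Pt → ℝ≥0∞ := fun e => ∑' c : Br, if Cp c.1 e ∧ 4 * D ≤ sp c.1 ∧
    sp c.1 < 8 * D then x ^ c.1.length else 0 with hG
  set H : List Pt → ℝ≥0∞ := fun e => ∑' c : Br, if (e = [] ∨ Cp c.1 e) ∧ 4 * D ≤ sp c.1 ∧
    sp c.1 < 8 * D then x ^ c.1.length else 0 with hH
  have s1 : PS x z (fun e c => Cp c e ∧ sp c ≤ sp e ∧ 4 * D ≤ sp c ∧ sp c < 8 * D) ≤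
      ∑' e : Br, (if D ≤ sp e.1 then wz x z e.1 * G e.1 else 0) := by
    unfold PS
    refine ENNReal.tsum_le_tsum (fun e => ?_)
    split_ifs with h
    · rw [hG]
      simp only
      rw [← ENNReal.tsum_mul_left]
      refine ENNReal.tsum_le_tsum (fun c => ?_)
      by_cases h1 : Cp c.1 e.1 ∧ sp c.1 ≤ sp e.1 ∧ 4 * D ≤ sp c.1 ∧ sp c.1 < 8 * D
      · rw [if_pos h1, if_pos ⟨h1.1, h1.2.2⟩]
        exact mul_le_mul_right (wz_le_pow x hz _) _
      · rw [if_neg h1]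
        exact zero_le
    · refine le_of_eq ?_
      rw [ENNReal.tsum_eq_zero]
      intro c
      rw [if_neg]
      rintro ⟨_, h1, h2, _⟩
      omega
  have s2 := cutL x hz hD1 G
  have s3 : ∀ q : Br × Ir × Br, (if sp q.1.1 < D then
        (wz x (zN (4 * D)) q.1.1 * (x ^ q.2.1.1.length * (1 - zN (4 * D) ^ sp q.2.1.1)) *
          wz x z q.2.2.1) * G (q.1.1 ++ (q.2.1.1 ++ q.2.2.1)) else 0) ≤
      (if sp q.1.1 < D then wz x (zN (4 * D)) q.1.1 * H q.1.1 else 0) *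
        (x ^ q.2.1.1.length * (1 - zN (4 * D) ^ sp q.2.1.1)) * wz x z q.2.2.1 := by
    intro q
    split_ifs with h
    · have h1 : G (q.1.1 ++ (q.2.1.1 ++ q.2.2.1)) ≤ H q.1.1 := by
        rw [hG, hH]
        simp only
        refine ENNReal.tsum_le_tsum (fun c => ?_)
        by_cases h2 : Cp c.1 (q.1.1 ++ (q.2.1.1 ++ q.2.2.1)) ∧ 4 * D ≤ sp c.1 ∧ sp c.1 < 8 * D
        · rw [if_pos h2, if_pos]
          refine ⟨?_, h2.2⟩
          by_cases h3 : q.1.1 = []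
          · exact Or.inl h3
          · right
            refine ⟨?_, h2.1.2.1, h3, h2.1.2.2.2⟩
            have h4 := h2.1.1
            rw [ng_append, ← List.append_assoc] at h4
            have h5 := h4.take (c.1 ++ ng q.1.1).length
            rwa [List.take_left'] at h5
            rfl
        · rw [if_neg h2]
          exact zero_le
      calc _ ≤ wz x (zN (4 * D)) q.1.1 * (x ^ q.2.1.1.length * (1 - zN (4 * D) ^ sp q.2.1.1)) *
          wz x z q.2.2.1 * H q.1.1 := mul_le_mul_right h1 _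
        _ = _ := by ring
    · rw [zero_mul, zero_mul]
  have s4 : ∑' e : Br, (if sp e.1 < D then wz x (zN (4 * D)) e.1 * H e.1 else 0) ≤
      8 * PS x (zN (4 * D)) (fun e c => (e = [] ∨ Cp c e) ∧ sp e < D ∧ 4 * D ≤ sp c) := by
    unfold PS
    rw [← ENNReal.tsum_mul_left]
    refine ENNReal.tsum_le_tsum (fun e => ?_)
    split_ifs with h
    · rw [hH]
      simp only
      rw [← ENNReal.tsum_mul_left, ← ENNReal.tsum_mul_left]
      refine ENNReal.tsum_le_tsum (fun c => ?_)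
      by_cases h1 : (e.1 = [] ∨ Cp c.1 e.1) ∧ 4 * D ≤ sp c.1 ∧ sp c.1 < 8 * D
      · rw [if_pos h1, if_pos ⟨h1.1, h, h1.2.1⟩]
        calc wz x (zN (4 * D)) e.1 * x ^ c.1.length
            ≤ wz x (zN (4 * D)) e.1 * (8 * wz x (zN (4 * D)) c.1) :=
              mul_le_mul_right (pow_le_wz x (by omega) (by have := h1.2.2; omega)) _
          _ = _ := by ring
      · rw [if_neg h1, mul_zero]
        exact zero_le
    · exact zero_le
  have hzD := zN_le_one (4 * D)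
  have s5 : PS x (zN (4 * D)) (fun e c => (e = [] ∨ Cp c e) ∧ sp e < D ∧ 4 * D ≤ sp c) ≤
      69 * ((p : ℝ≥0∞) + 1) ^ 2 * UU x (zN (4 * D)) := by
    rw [PS_swap]
    have t1 := PS_or (x := x) (z := zN (4 * D))
      (P := fun c e => (e = [] ∨ Cp c e) ∧ sp e < D ∧ 4 * D ≤ sp c)
      (Q := fun _ e => e = []) (R := fun c e => Cp c e ∧ sp e ≤ sp c ∧ sp e < 2 ^ (p + 2))
      (fun c e _ _ h => by
        by_cases h0 : e = []
        · exact Or.inl h0
        · refine Or.inr ⟨h.1.resolve_left h0, ?_, ?_⟩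
          · have := h.2.1; have := h.2.2; omega
          · rw [e4]; have := h.2.1; omega)
    have h1K : (1 : ℝ≥0∞) ≤ (p : ℝ≥0∞) + 1 := le_add_self
    calc _ ≤ UU x (zN (4 * D)) + 68 * ((p : ℝ≥0∞) + 1) ^ 2 * UU x (zN (4 * D)) :=
          t1.trans (add_le_add (PS_nil_right _ _) (totB hu hzD p))
      _ = 1 * UU x (zN (4 * D)) + 68 * ((p : ℝ≥0∞) + 1) ^ 2 * UU x (zN (4 * D)) := by rw [one_mul]
      _ ≤ ((p : ℝ≥0∞) + 1) ^ 2 * UU x (zN (4 * D)) +
          68 * ((p : ℝ≥0∞) + 1) ^ 2 * UU x (zN (4 * D)) := by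
          gcongr
          exact one_le_pow₀ h1K
      _ = _ := by ring
  have hk := UU_kap hu (zN_lt_one (4 * D))
  calc PS x z (fun e c => Cp c e ∧ sp c ≤ sp e ∧ 4 * D ≤ sp c ∧ sp c < 8 * D)
      ≤ 8 * ∑' q : Br × Ir × Br,
        (if sp q.1.1 < D then wz x (zN (4 * D)) q.1.1 * H q.1.1 else 0) *
        (x ^ q.2.1.1.length * (1 - zN (4 * D) ^ sp q.2.1.1)) * wz x z q.2.2.1 :=
        (s1.trans s2).trans (mul_le_mul_right (ENNReal.tsum_le_tsum s3) _)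
    _ = 8 * (UU x z * kap x (zN (4 * D)) *
        ∑' c : Br, (if sp c.1 < D then wz x (zN (4 * D)) c.1 * H c.1 else 0)) := by
        rw [← sum3' x z (zN (4 * D)) (fun c => if sp c < D then wz x (zN (4 * D)) c * H c else 0)]
    _ ≤ 8 * (UU x z * kap x (zN (4 * D)) *
        (8 * (69 * ((p : ℝ≥0∞) + 1) ^ 2 * UU x (zN (4 * D))))) :=
        mul_le_mul_right (mul_le_mul_right (s4.trans (mul_le_mul_right s5 _)) _) _
    _ = 4416 * ((p : ℝ≥0∞) + 1) ^ 2 * UU x z * (UU x (zN (4 * D)) * kap x (zN (4 * D))) := by ring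
    _ ≤ 4416 * ((p : ℝ≥0∞) + 1) ^ 2 * UU x z * 1 := mul_le_mul_right hk _
    _ = _ := by ring

theorem totA {x : ℝ≥0∞} (hu : ∀ t, uu x t ≤ 1) {z : ℝ≥0∞} (hz : z ≤ 1) (K : ℕ) :
    PS x z (fun c e => Cp c e ∧ sp c ≤ sp e ∧ sp c < 2 ^ (K + 2)) ≤
      4420 * ((K : ℝ≥0∞) + 1) ^ 3 * UU x z := by
  have t1 := PS_or (x := x) (z := z) (P := fun c e => Cp c e ∧ sp c ≤ sp e ∧ sp c < 2 ^ (K + 2))
    (Q := fun c _ => sp c < 4)
    (R := fun c e => Cp c e ∧ sp c ≤ sp e ∧ 4 ≤ sp c ∧ sp c < 2 ^ (K + 2))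
    (fun c e _ _ h => by
      rcases Nat.lt_or_ge (sp c) 4 with h1 | h1
      · exact Or.inl h1
      · exact Or.inr ⟨h.1, h.2.1, h1, h.2.2⟩)
  have t2 := PS_sum (x := x) (z := z)
    (P := fun c e => Cp c e ∧ sp c ≤ sp e ∧ 4 ≤ sp c ∧ sp c < 2 ^ (K + 2))
    (Q := fun p c e => Cp c e ∧ sp c ≤ sp e ∧ 2 ^ (p + 2) ≤ sp c ∧ sp c < 2 ^ (p + 3)) K
    (fun c e _ _ h => by
      obtain ⟨p, hp, h1, h2⟩ := dy h.2.2.1 h.2.2.2
      exact ⟨p, hp, h.1, h.2.1, h1, h2⟩)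
  have t3 : ∑ p ∈ Finset.range K, PS x z (fun c e => Cp c e ∧ sp c ≤ sp e ∧
      2 ^ (p + 2) ≤ sp c ∧ sp c < 2 ^ (p + 3)) ≤
      ∑ p ∈ Finset.range K, 4416 * ((K : ℝ≥0∞) + 1) ^ 2 * UU x z := by
    refine Finset.sum_le_sum (fun p hp => (caseA hu hz p).trans ?_)
    have : (p : ℝ≥0∞) ≤ K := by exact_mod_cast (Finset.mem_range.1 hp).le
    gcongr
  rw [Finset.sum_const, Finset.card_range, nsmul_eq_mul] at t3
  have hK : (K : ℝ≥0∞) ≤ (K : ℝ≥0∞) + 1 := le_self_add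
  have h1K : (1 : ℝ≥0∞) ≤ (K : ℝ≥0∞) + 1 := le_add_self
  calc _ ≤ 4 * UU x z + K * (4416 * ((K : ℝ≥0∞) + 1) ^ 2 * UU x z) :=
        t1.trans (add_le_add (PS_small_left hu hz) (t2.trans t3))
    _ ≤ 4 * ((K : ℝ≥0∞) + 1) ^ 3 * UU x z +
        ((K : ℝ≥0∞) + 1) * (4416 * ((K : ℝ≥0∞) + 1) ^ 2 * UU x z) := by
        gcongr
        calc (4 : ℝ≥0∞) = 4 * 1 := (mul_one _).symm
          _ ≤ 4 * ((K : ℝ≥0∞) + 1) ^ 3 := mul_le_mul_right (one_le_pow₀ h1K) _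
    _ = _ := by ring

/-- the bridges with large span -/
theorem tail_mass {x : ℝ≥0∞} (hu : ∀ t, uu x t ≤ 1) {N A : ℕ} (hN : 1 ≤ N) (hA : 4 * N ^ 2 ≤ A) :
    ∑' e : Br, (if A ≤ sp e.1 then wz x (zN N) e.1 else 0) ≤ 1 := by
  classical
  have h := tsum_sp (fun l => if A ≤ sp l then wz x (zN N) l else 0)
  rw [h]
  have h1 : ∀ t : ℕ, (∑' b : BW t, (if A ≤ sp b.1 then wz x (zN N) b.1 else 0)) ≤
      if A ≤ t then zN N ^ t else 0 := by
    intro t
    split_ifs with ht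
    · calc (∑' b : BW t, (if A ≤ sp b.1 then wz x (zN N) b.1 else 0))
          ≤ ∑' b : BW t, x ^ b.1.length * zN N ^ t := by
            refine ENNReal.tsum_le_tsum (fun b => ?_)
            split_ifs
            · unfold wz
              rw [sp_of_W b.2]
            · exact zero_le
        _ = uu x t * zN N ^ t := by
            unfold uu mass
            rw [ENNReal.tsum_mul_right]
        _ ≤ 1 * zN N ^ t := mul_le_mul_left (hu t) _
        _ = _ := one_mul _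
    · refine le_of_eq ?_
      rw [ENNReal.tsum_eq_zero]
      intro b
      rw [if_neg]
      rw [sp_of_W b.2]
      exact ht
  refine (ENNReal.tsum_le_tsum h1).trans ?_
  have h3 : ∑' t : ℕ, (if A ≤ t then zN N ^ t else 0) =
      ∑' t : ℕ, (if A ≤ t + A then zN N ^ (t + A) else 0) := by
    have h4 := Summable.sum_add_tsum_nat_add' (k := A)
      (f := fun t : ℕ => if A ≤ t then zN N ^ t else 0) ENNReal.summable
    rw [← h4, Finset.sum_eq_zero (fun t ht => by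
      rw [if_neg]
      have := Finset.mem_range.1 ht
      omega), zero_add]
  rw [h3]
  have h2 : ∀ t : ℕ, (if A ≤ t + A then zN N ^ (t + A) else 0) = zN N ^ A * zN N ^ t := by
    intro t
    rw [if_pos (by omega), pow_add, mul_comm]
  rw [tsum_congr h2, ENNReal.tsum_mul_left, geom_zN]
  exact num_tail hN hA

open Classical in
theorem VV_le_PS (x z : ℝ≥0∞) : VV x z ≤ 2 * UU x z + 2 * PS x z Cp := by
  set G : Br × Br → ℝ≥0∞ := fun p => if Cp p.1.1 p.2.1 then wz x z p.1.1 * wz x z p.2.1 else 0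
    with hG
  set n0 : Br := ⟨[], bridge_nil⟩ with hn0
  have h1 : ∀ p : Br × Br,
      (if Walk (p.1.1 ++ ng p.2.1) then wz x z p.1.1 * wz x z p.2.1 else 0) ≤
      (if p.1 = n0 then 1 else 0) * wz x z p.2.1 + wz x z p.1.1 * (if p.2 = n0 then 1 else 0) +
        (G p + G (ryE p)) := by
    rintro ⟨c, e⟩
    by_cases h : Walk (c.1 ++ ng e.1)
    · simp only [h, if_true]
      by_cases hc : c = n0
      · refine le_trans ?_ (le_trans le_self_add le_self_add)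
        simp only [hc, if_true, hn0, wz_nil, one_mul]
        exact le_rfl
      by_cases he : e = n0
      · refine le_trans ?_ (le_trans le_add_self le_self_add)
        simp only [he, if_true, hn0, wz_nil, mul_one]
        exact le_rfl
      have hc1 : c.1 ≠ [] := fun h => hc (Subtype.ext h)
      have he1 : e.1 ≠ [] := fun h => he (Subtype.ext h)
      rcases hairpin_cases c.2 e.2 h hc1 he1 with h2 | h2
      · refine le_trans ?_ (le_trans le_self_add le_add_self)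
        simp only [hG, h2, if_true]
        exact le_rfl
      · refine le_trans ?_ (le_trans le_add_self le_add_self)
        simp only [hG, ryE, Equiv.coe_fn_mk, h2, if_true, wz_ry]
        exact le_rfl
    · simp [h]
  have h2 : ∑' a : Br, (if a = n0 then (1 : ℝ≥0∞) else 0) = 1 := tsum_ite_eq n0 (fun _ => 1)
  have h3 : ∑' p, G p = PS x z Cp := by
    unfold PS
    rw [← ENNReal.tsum_prod (f := fun c e : Br => if Cp c.1 e.1 then
      wz x z c.1 * wz x z e.1 else 0)]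
  have hVV : VV x z = ∑' p : Br × Br,
      if Walk (p.1.1 ++ ng p.2.1) then wz x z p.1.1 * wz x z p.2.1 else 0 := rfl
  rw [hVV]
  refine (ENNReal.tsum_le_tsum h1).trans ?_
  rw [ENNReal.tsum_add, ENNReal.tsum_add, ENNReal.tsum_add,
    tsum_mul (fun a : Br => if a = n0 then (1 : ℝ≥0∞) else 0) (fun b : Br => wz x z b.1),
    tsum_mul (fun b : Br => wz x z b.1) (fun a : Br => if a = n0 then (1 : ℝ≥0∞) else 0), h2,
    one_mul, mul_one, ryE.tsum_eq G, h3, two_mul, two_mul]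
  exact le_rfl

/-- **`V ≤ C (k+1)^3 U`** -/
theorem VV_log : ∃ C : ℝ≥0∞, C ≠ ⊤ ∧ ∀ x : ℝ≥0∞, (∀ t, uu x t ≤ 1) → ∀ k : ℕ,
    VV x (zN (2 ^ k)) ≤ C * ((k : ℝ≥0∞) + 1) ^ 3 * UU x (zN (2 ^ k)) := by
  classical
  refine ⟨80000, by simp, ?_⟩
  intro x hu k
  set z := zN (2 ^ k) with hz
  have hz1 : z ≤ 1 := zN_le_one _
  set K := 2 * k with hK
  have hA : 4 * (2 ^ k) ^ 2 ≤ 2 ^ (K + 2) := by
    rw [hK, pow_add, ← pow_mul, mul_comm k 2]
    omega
  have t1 := PS_or (x := x) (z := z) (P := Cp)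
    (Q := fun c e => 2 ^ (K + 2) ≤ sp c ∧ 2 ^ (K + 2) ≤ sp e)
    (R := fun c e => (Cp c e ∧ sp e ≤ sp c ∧ sp e < 2 ^ (K + 2)) ∨
      (Cp c e ∧ sp c ≤ sp e ∧ sp c < 2 ^ (K + 2)))
    (fun c e _ _ h => by
      rcases Nat.lt_or_ge (sp e) (2 ^ (K + 2)) with h1 | h1
      · rcases Nat.le_total (sp e) (sp c) with h2 | h2
        · exact Or.inr (Or.inl ⟨h, h2, h1⟩)
        · exact Or.inr (Or.inr ⟨h, h2, lt_of_le_of_lt h2 h1⟩)
      · rcases Nat.lt_or_ge (sp c) (2 ^ (K + 2)) with h2 | h2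
        · exact Or.inr (Or.inr ⟨h, (h2.trans_le h1).le, h2⟩)
        · exact Or.inl ⟨h2, h1⟩)
  have t2 := PS_or (x := x) (z := z)
    (P := fun c e => (Cp c e ∧ sp e ≤ sp c ∧ sp e < 2 ^ (K + 2)) ∨
      (Cp c e ∧ sp c ≤ sp e ∧ sp c < 2 ^ (K + 2)))
    (Q := fun c e => Cp c e ∧ sp e ≤ sp c ∧ sp e < 2 ^ (K + 2))
    (R := fun c e => Cp c e ∧ sp c ≤ sp e ∧ sp c < 2 ^ (K + 2)) (fun c e _ _ h => h)
  have t3 : PS x z (fun c e => 2 ^ (K + 2) ≤ sp c ∧ 2 ^ (K + 2) ≤ sp e) ≤ 1 := by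
    rw [PS_prod (fun c => 2 ^ (K + 2) ≤ sp c) (fun e => 2 ^ (K + 2) ≤ sp e)]
    have := tail_mass hu (N := 2 ^ k) Nat.one_le_two_pow hA
    exact mul_le_one' this this
  have hU := one_le_UU x z
  have hk1 : (1 : ℝ≥0∞) ≤ (k : ℝ≥0∞) + 1 := le_add_self
  have hKk : (K : ℝ≥0∞) + 1 ≤ 2 * ((k : ℝ≥0∞) + 1) := by
    rw [hK]
    push_cast
    calc 2 * (k : ℝ≥0∞) + 1 ≤ 2 * k + 2 := by gcongr; norm_num
      _ = _ := by ring
  have t4 : PS x z Cp ≤ 1 + (68 * ((K : ℝ≥0∞) + 1) ^ 2 * UU x z +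
      4420 * ((K : ℝ≥0∞) + 1) ^ 3 * UU x z) :=
    t1.trans (add_le_add t3 (t2.trans (add_le_add (totB hu hz1 K) (totA hu hz1 K))))
  have hp3 : (1 : ℝ≥0∞) ≤ ((k : ℝ≥0∞) + 1) ^ 3 := one_le_pow₀ hk1
  have hp2 : ((k : ℝ≥0∞) + 1) ^ 2 ≤ ((k : ℝ≥0∞) + 1) ^ 3 := pow_le_pow_right₀ hk1 (by norm_num)
  set Y := ((k : ℝ≥0∞) + 1) ^ 3 with hY
  have a1 : (1 : ℝ≥0∞) ≤ Y * UU x z := by
    calc (1 : ℝ≥0∞) = 1 * 1 := (mul_one _).symm
      _ ≤ _ := mul_le_mul' hp3 hU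
  have a2 : 68 * ((K : ℝ≥0∞) + 1) ^ 2 * UU x z ≤ 272 * (Y * UU x z) := by
    calc 68 * ((K : ℝ≥0∞) + 1) ^ 2 * UU x z ≤ 68 * (2 * ((k : ℝ≥0∞) + 1)) ^ 2 * UU x z := by
          gcongr
      _ = 272 * (((k : ℝ≥0∞) + 1) ^ 2 * UU x z) := by ring
      _ ≤ _ := by gcongr
  have a3 : 4420 * ((K : ℝ≥0∞) + 1) ^ 3 * UU x z ≤ 35360 * (Y * UU x z) := by
    calc 4420 * ((K : ℝ≥0∞) + 1) ^ 3 * UU x z ≤ 4420 * (2 * ((k : ℝ≥0∞) + 1)) ^ 3 * UU x z := by
          gcongr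
      _ = 35360 * (((k : ℝ≥0∞) + 1) ^ 3 * UU x z) := by ring
      _ ≤ _ := by gcongr
  have a4 : UU x z ≤ Y * UU x z := by
    calc UU x z = 1 * UU x z := (one_mul _).symm
      _ ≤ _ := mul_le_mul_left hp3 _
  calc VV x z ≤ 2 * UU x z + 2 * PS x z Cp := VV_le_PS x z
    _ ≤ 2 * (Y * UU x z) + 2 * (Y * UU x z + (272 * (Y * UU x z) + 35360 * (Y * UU x z))) := by
        refine add_le_add (mul_le_mul_right a4 _) (mul_le_mul_right (t4.trans ?_) _)
        exact add_le_add a1 (add_le_add a2 a3)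
    _ = 71268 * (Y * UU x z) := by ring
    _ ≤ 80000 * (Y * UU x z) := by gcongr; norm_num
    _ = _ := by ring

end Pool.Agent.Work.MP_376faf_co_log
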